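import Mathlib

/-!
Branching rule for (polynomial versions of) Schur functions, stated for Mathlib's
semistandard Young tableaux: remove all the boxes carrying the largest letter.
-/

set_option autoImplicit false

open MvPolynomial

namespace Pool.Agent.K7.H22.SNP

noncomputable section

/-- Tableaux of shape `μ` with entries `< k`. -/
abbrev TT (k : ℕ) (μ : YoungDiagram) : Type :=
  {T : SemistandardYoungTableau μ // ∀ p ∈ μ.cells, T p.1 p.2 < k}

instance (k : ℕ) (μ : YoungDiagram) : Finite (TT k μ) := by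
  let f : TT k μ → (μ.cells → Fin k) := fun T p => ⟨T.1 p.1.1 p.1.2, T.2 p.1 p.2⟩
  apply Finite.of_injective f
  intro T T' h
  apply Subtype.ext
  apply SemistandardYoungTableau.ext
  intro i j
  by_cases hij : (i, j) ∈ μ
  · have := congrFun h ⟨(i, j), hij⟩
    simpa [f] using this
  · rw [T.1.zeros hij, T'.1.zeros hij]

/-- The weight monomial of a tableau. -/
def wt {μ : YoungDiagram} (T : SemistandardYoungTableau μ) : MvPolynomial ℕ ℤ :=
  ∏ p ∈ μ.cells, (X (T p.1 p.2) : MvPolynomial ℕ ℤ)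

/-- The Schur polynomial in `k` variables. -/
def S (k : ℕ) (μ : YoungDiagram) : MvPolynomial ℕ ℤ := ∑ᶠ T : TT k μ, wt T.1

/-- shapes `ν ≤ μ` with `μ / ν` a horizontal strip -/
abbrev HS (μ : YoungDiagram) : Type :=
  {ν : YoungDiagram // ν ≤ μ ∧ ∀ i j, (i + 1, j) ∈ μ → (i, j) ∈ ν}

instance (μ : YoungDiagram) : Finite (HS μ) := by
  let f : HS μ → (μ.cells.powerset) := fun ν => ⟨ν.1.cells, Finset.mem_powerset.mpr ν.2.1⟩
  apply Finite.of_injective f
  intro ν ν' h
  apply Subtype.ext
  apply YoungDiagram.ext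
  simpa [f] using h

/-- glue: put the letter `k` in the boxes of `μ / ν` -/
def glue (k : ℕ) (μ : YoungDiagram) (x : Σ ν : HS μ, TT k ν.1) : TT (k + 1) μ :=
  ⟨{ entry := fun i j => if (i, j) ∈ x.1.1 then x.2.1 i j else if (i, j) ∈ μ then k else 0
     row_weak' := by
       obtain ⟨⟨ν, hν, hh⟩, T⟩ := x
       intro i j1 j2 hj hm
       dsimp only
       have h1 : (i, j1) ∈ μ := μ.up_left_mem le_rfl hj.le hm
       by_cases h2 : (i, j2) ∈ ν
       · have h3 : (i, j1) ∈ ν := ν.up_left_mem le_rfl hj.le h2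
         rw [if_pos h2, if_pos h3]
         exact T.1.row_weak hj h2
       · rw [if_neg h2, if_pos hm]
         split_ifs with h3
         · exact (T.2 _ h3).le
         · exact le_rfl
     col_strict' := by
       obtain ⟨⟨ν, hν, hh⟩, T⟩ := x
       intro i1 i2 j hi hm
       dsimp only
       have h1 : (i1, j) ∈ ν := hh i1 j (μ.up_left_mem (Nat.succ_le_of_lt hi) le_rfl hm)
       rw [if_pos h1]
       split_ifs with h2
       · exact T.1.col_strict hi h2
       · exact T.2 _ h1
     zeros' := by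
       obtain ⟨⟨ν, hν, hh⟩, T⟩ := x
       intro i j hm
       dsimp only
       rw [if_neg (fun h => hm (hν h)), if_neg hm] },
   by
     obtain ⟨⟨ν, hν, hh⟩, T⟩ := x
     rintro ⟨i, j⟩ hp
     change (if (i, j) ∈ ν then T.1 i j else if (i, j) ∈ μ then k else 0) < k + 1
     split_ifs with h1 h2
     · exact (T.2 _ h1).trans (Nat.lt_succ_self k)
     · exact Nat.lt_succ_self k
     · exact Nat.succ_pos k⟩

theorem glue_apply (k : ℕ) (μ : YoungDiagram) (x : Σ ν : HS μ, TT k ν.1) (i j : ℕ) :
    (glue k μ x).1 i j = if (i, j) ∈ x.1.1 then x.2.1 i j else if (i, j) ∈ μ then k else 0 := rfl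

theorem glue_injective (k : ℕ) (μ : YoungDiagram) : Function.Injective (glue k μ) := by
  rintro ⟨⟨ν, hν, hh⟩, T⟩ ⟨⟨ν', hν', hh'⟩, T'⟩ h
  have key : ∀ i j, (if (i, j) ∈ ν then T.1 i j else if (i, j) ∈ μ then k else 0) =
      (if (i, j) ∈ ν' then T'.1 i j else if (i, j) ∈ μ then k else 0) := by
    intro i j
    have := congrArg (fun t : TT (k + 1) μ => t.1 i j) h
    simpa only [glue_apply] using this
  have hνν : ν = ν' := by
    apply YoungDiagram.ext
    ext ⟨i, j⟩
    constructor
    · intro hm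
      by_contra hn
      have h1 := key i j
      have hm' : (i, j) ∈ ν := hm
      have hn' : (i, j) ∉ ν' := hn
      rw [if_pos hm', if_neg hn', if_pos (hν hm')] at h1
      exact absurd h1 (T.2 _ hm).ne
    · intro hm
      by_contra hn
      have h1 := key i j
      have hm' : (i, j) ∈ ν' := hm
      have hn' : (i, j) ∉ ν := hn
      rw [if_pos hm', if_neg hn', if_pos (hν' hm')] at h1
      exact absurd h1.symm (T'.2 _ hm).ne
  subst hνν
  have hTT : T = T' := by
    apply Subtype.ext
    apply SemistandardYoungTableau.ext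
    intro i j
    by_cases hij : (i, j) ∈ ν
    · have := key i j
      rwa [if_pos hij, if_pos hij] at this
    · rw [T.1.zeros hij, T'.1.zeros hij]
  subst hTT
  rfl

theorem glue_surjective (k : ℕ) (μ : YoungDiagram) : Function.Surjective (glue k μ) := by
  rintro ⟨T, hT⟩
  let ν : YoungDiagram :=
    { cells := μ.cells.filter (fun p => T p.1 p.2 < k)
      isLowerSet := by
        rintro ⟨i2, j2⟩ ⟨i1, j1⟩ ⟨hi, hj⟩ hc
        simp only [Finset.coe_filter, Set.mem_ofPred_eq] at hc ⊢
        simp only at hi hj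
        have h1 : (i1, j1) ∈ μ := μ.up_left_mem hi hj hc.1
        have h2 : (i1, j2) ∈ μ := μ.up_left_mem hi le_rfl hc.1
        refine ⟨h1, ?_⟩
        calc T i1 j1 ≤ T i1 j2 := T.row_weak_of_le hj h2
          _ ≤ T i2 j2 := T.col_weak hi hc.1
          _ < k := hc.2 }
  have memν : ∀ i j, (i, j) ∈ ν ↔ (i, j) ∈ μ ∧ T i j < k := by
    intro i j
    change (i, j) ∈ μ.cells.filter (fun p => T p.1 p.2 < k) ↔ _
    simp
  have hν : ν ≤ μ := by
    rintro ⟨i, j⟩ h
    exact ((memν i j).1 h).1
  have hh : ∀ i j, (i + 1, j) ∈ μ → (i, j) ∈ ν := by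
    intro i j h
    rw [memν]
    refine ⟨μ.up_left_mem (Nat.le_succ i) le_rfl h, ?_⟩
    have h1 := T.col_strict (Nat.lt_succ_self i) h
    have h2 := hT (i + 1, j) h
    simp only at h2
    simp only [Nat.succ_eq_add_one] at h1
    omega
  let T' : SemistandardYoungTableau ν :=
    { entry := fun i j => if (i, j) ∈ ν then T i j else 0
      row_weak' := by
        intro i j1 j2 hj hm
        have h1 : (i, j1) ∈ ν := ν.up_left_mem le_rfl hj.le hm
        rw [if_pos hm, if_pos h1]
        exact T.row_weak hj (hν hm)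
      col_strict' := by
        intro i1 i2 j hi hm
        have h1 : (i1, j) ∈ ν := ν.up_left_mem hi.le le_rfl hm
        rw [if_pos hm, if_pos h1]
        exact T.col_strict hi (hν hm)
      zeros' := by
        intro i j hm
        rw [if_neg hm] }
  have hT'app : ∀ i j, T' i j = if (i, j) ∈ ν then T i j else 0 := fun i j => rfl
  have hT' : ∀ p ∈ ν.cells, T' p.1 p.2 < k := by
    rintro ⟨i, j⟩ hp
    have hp' : (i, j) ∈ ν := hp
    rw [hT'app, if_pos hp']
    exact ((memν i j).1 hp').2
  refine ⟨⟨⟨ν, hν, hh⟩, ⟨T', hT'⟩⟩, ?_⟩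
  apply Subtype.ext
  apply SemistandardYoungTableau.ext
  intro i j
  rw [glue_apply]
  change (if (i, j) ∈ ν then T' i j else if (i, j) ∈ μ then k else 0) = T i j
  by_cases h1 : (i, j) ∈ ν
  · rw [if_pos h1, hT'app, if_pos h1]
  · rw [if_neg h1]
    by_cases h2 : (i, j) ∈ μ
    · rw [if_pos h2]
      have h3 := hT (i, j) h2
      rw [memν] at h1
      simp only at h3
      have : ¬ T i j < k := fun h => h1 ⟨h2, h⟩
      omega
    · rw [if_neg h2, T.zeros h2]

theorem wt_glue (k : ℕ) (μ : YoungDiagram) (x : Σ ν : HS μ, TT k ν.1) :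
    wt (glue k μ x).1 = X k ^ (μ.card - x.1.1.card) * wt x.2.1 := by
  obtain ⟨⟨ν, hν, hh⟩, T⟩ := x
  unfold wt
  have hsub : ν.cells ⊆ μ.cells := hν
  rw [← Finset.prod_sdiff hsub]
  congr 1
  · rw [Finset.prod_congr rfl (g := fun _ => X k)]
    · rw [Finset.prod_const, Finset.card_sdiff_of_subset hsub]
    · rintro ⟨i, j⟩ hp
      rw [Finset.mem_sdiff] at hp
      rw [glue_apply]
      have h1 : (i, j) ∉ ν := hp.2
      have h2 : (i, j) ∈ μ := hp.1
      simp only
      rw [if_neg h1, if_pos h2]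
  · apply Finset.prod_congr rfl
    rintro ⟨i, j⟩ hp
    rw [glue_apply]
    have h1 : (i, j) ∈ ν := hp
    simp only
    rw [if_pos h1]

theorem S_succ (k : ℕ) (μ : YoungDiagram) :
    S (k + 1) μ = ∑ᶠ ν : HS μ, X k ^ (μ.card - ν.1.card) * S k ν.1 := by
  classical
  have : Fintype (HS μ) := Fintype.ofFinite _
  have : ∀ k μ, Fintype (TT k μ) := fun _ _ => Fintype.ofFinite _
  have e := Equiv.ofBijective (glue k μ) ⟨glue_injective k μ, glue_surjective k μ⟩
  rw [finsum_eq_sum_of_fintype]
  unfold S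
  rw [finsum_eq_sum_of_fintype]
  rw [← Function.Bijective.sum_comp (⟨glue_injective k μ, glue_surjective k μ⟩ :
    Function.Bijective (glue k μ)) (fun T => wt T.1)]
  rw [Fintype.sum_sigma]
  apply Finset.sum_congr rfl
  intro ν _
  rw [finsum_eq_sum_of_fintype, Finset.mul_sum]
  apply Finset.sum_congr rfl
  intro T _
  rw [wt_glue]

theorem S_zero (μ : YoungDiagram) (h : μ.cells.Nonempty) : S 0 μ = 0 := by
  unfold S
  have : IsEmpty (TT 0 μ) := by
    constructor
    rintro ⟨T, hT⟩
    obtain ⟨p, hp⟩ := h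
    exact absurd (hT p hp) (Nat.not_lt_zero _)
  exact finsum_of_isEmpty _

theorem S_bot (k : ℕ) (μ : YoungDiagram) (h : μ.cells = ∅) : S k μ = 1 := by
  classical
  unfold S
  have hu : ∀ T T' : TT k μ, T = T' := by
    intro T T'
    apply Subtype.ext
    apply SemistandardYoungTableau.ext
    intro i j
    have hn : (i, j) ∉ μ := by
      intro hm
      have : (i, j) ∈ μ.cells := hm
      rw [h] at this
      simp at this
    rw [T.1.zeros hn, T'.1.zeros hn]
  let T0 : TT k μ := ⟨SemistandardYoungTableau.highestWeight μ, by rw [h]; simp⟩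
  have : Unique (TT k μ) := ⟨⟨T0⟩, fun T => hu T T0⟩
  rw [finsum_unique]
  unfold wt
  apply Finset.prod_eq_one
  intro p hp
  rw [h] at hp
  simp at hp

end

end Pool.Agent.K7.H22.SNP
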