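import Pool.Agent.K7.H22.SNP.Data

set_option autoImplicit false

namespace Pool.Agent.K7.H22.SNP

noncomputable section

/-- `c * u + v`, padded -/
def axpy (c : ℤ) (u : List ℤ) : List ℤ → List ℤ :=
  List.rec (motive := fun _ => List ℤ → List ℤ) (fun v => v)
    (fun a _ ih v => List.rec (motive := fun _ => List ℤ) (Int.mul c a :: ih [])
      (fun b v' _ => Int.add (Int.mul c a) b :: ih v') v) u

/-- add `c * u` in degree `n` -/
def axpyG (c : ℤ) (u : List ℤ) (n : ℕ) : List (List ℤ) → List (List ℤ) :=
  Nat.rec (motive := fun _ => List (List ℤ) → List (List ℤ))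
    (fun g => List.rec (motive := fun _ => List (List ℤ)) [axpy c u []]
      (fun v g' _ => axpy c u v :: g') g)
    (fun _ ih g => List.rec (motive := fun _ => List (List ℤ)) ([] :: ih [])
      (fun v g' _ => v :: ih g') g) n

/-- add `a` times the 0/1 vector of the bit mask `m` to a vector -/
def addMask (a : ℤ) (v : List ℤ) : ℕ → List ℤ :=
  List.rec (motive := fun _ => ℕ → List ℤ) (fun _ => [])
    (fun b _ ih m => cond (Nat.beq (Nat.mod m 2) 1) (Int.add a b) b :: ih (Nat.div m 2)) v

def addMaskG (a : ℤ) (g : List (List ℤ)) : List ℕ → List (List ℤ) :=
  List.rec (motive := fun _ => List ℕ → List (List ℤ)) (fun _ => [])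
    (fun v g' ih ms => List.rec (motive := fun _ => List (List ℤ)) (v :: g')
      (fun m ms' _ => addMask a v m :: ih ms') ms) g

/-- all entries are zero -/
def zeroL (v : List ℤ) : Bool :=
  List.rec (motive := fun _ => Bool) true (fun b _ ih => cond (Int.beq' b 0) ih false) v

def zeroG (v : List (List ℤ)) : Bool :=
  List.rec (motive := fun _ => Bool) true (fun b _ ih => cond (zeroL b) ih false) v

/-- padded equality -/
def eqL (u : List ℤ) : List ℤ → Bool :=
  List.rec (motive := fun _ => List ℤ → Bool) (fun v => zeroL v)
    (fun a u ih v => List.rec (motive := fun _ => Bool) (zeroL (a :: u))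
      (fun b v' _ => cond (Int.beq' a b) (ih v') false) v) u

def eqG (u : List (List ℤ)) : List (List ℤ) → Bool :=
  List.rec (motive := fun _ => List (List ℤ) → Bool) (fun v => zeroG v)
    (fun a u ih v => List.rec (motive := fun _ => Bool) (zeroG (a :: u))
      (fun b v' _ => cond (eqL a b) (ih v') false) v) u

/-- number of bits of `r < 32` -/
def pc (r : ℕ) : ℕ := r % 2 + r / 2 % 2 + r / 4 % 2 + r / 8 % 2 + r / 16 % 2

/-- the stable subsets of the core (as bit masks) -/
def stabs : List ℕ := [0, 1, 2, 3, 4, 8, 12, 16, 18, 20, 24, 28]

def subs (r : ℕ) : List ℕ := stabs.filter (fun s => Nat.beq (Nat.land s r) s)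

def C (r i j : ℕ) : List ℤ := ((tab.getD r []).getD i []).getD j []

/-- multiplicity of the move removing the stable set `s` of the core, `i'` of the first and `j'` of
the second kind of leaves -/
def mult (s i j i' j' : ℕ) : ℕ :=
  (bif Nat.beq (Nat.land s 12) 0 || Nat.beq i' 0 then i.choose i' else 0) *
    (bif Nat.beq (Nat.land s 3) 0 || Nat.beq j' 0 then j.choose j' else 0)

def term (r i j s i' j' : ℕ) (g : List (List ℤ)) : List (List ℤ) :=
  bif Nat.beq (mult s i j i' j') 0 then g else
    axpyG (mult s i j i' j') (C (r - s) (i - i') (j - j')) (pc (r - s) + (i - i') + (j - j')) g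

def lhs (r i j : ℕ) : List (List ℤ) :=
  (subs r).foldr (fun s g => (List.range (i + 1)).foldr (fun i' g => (List.range (j + 1)).foldr
    (fun j' g => term r i j s i' j' g) g) g) []

def zeros : List (List ℤ) :=
  [[0],[0],[0,0],[0,0,0],[0,0,0,0,0],[0,0,0,0,0,0,0],List.replicate 11 0, List.replicate 15 0,
  List.replicate 22 0, List.replicate 30 0, List.replicate 42 0, List.replicate 56 0,
  List.replicate 77 0]

def rhsAux (v : List ℤ) : List (List ℕ) → List (List ℤ) → List (List ℤ) :=
  List.rec (motive := fun _ => List (List ℕ) → List (List ℤ) → List (List ℤ)) (fun _ g => g)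
    (fun a _ ih ms g => List.rec (motive := fun _ => List (List ℤ)) g
      (fun m ms' _ => ih ms' (cond (Int.beq' a 0) g (addMaskG a g m))) ms) v

def rhs (r i j : ℕ) : List (List ℤ) := rhsAux (C r i j) (ind.getD (pc r + i + j) []) zeros

def chk (r : ℕ) : Bool :=
  (List.range 5).all (fun i => (List.range 4).all (fun j => eqG (lhs r i j) (rhs r i j)))

end

set_option maxRecDepth 100000 in
theorem chk0 : chk 0 = true := by decide +kernel

set_option maxRecDepth 100000 in
theorem chk1 : chk 1 = true := by decide +kernel

set_option maxRecDepth 100000 in
theorem chk2 : chk 2 = true := by decide +kernel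

set_option maxRecDepth 100000 in
theorem chk3 : chk 3 = true := by decide +kernel

set_option maxRecDepth 100000 in
theorem chk4 : chk 4 = true := by decide +kernel

set_option maxRecDepth 100000 in
theorem chk5 : chk 5 = true := by decide +kernel

set_option maxRecDepth 100000 in
theorem chk6 : chk 6 = true := by decide +kernel

set_option maxRecDepth 100000 in
theorem chk7 : chk 7 = true := by decide +kernel

set_option maxRecDepth 100000 in
theorem chk8 : chk 8 = true := by decide +kernel

set_option maxRecDepth 100000 in
theorem chk9 : chk 9 = true := by decide +kernel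

set_option maxRecDepth 100000 in
theorem chk10 : chk 10 = true := by decide +kernel

set_option maxRecDepth 100000 in
theorem chk11 : chk 11 = true := by decide +kernel

set_option maxRecDepth 100000 in
theorem chk12 : chk 12 = true := by decide +kernel

set_option maxRecDepth 100000 in
theorem chk13 : chk 13 = true := by decide +kernel

set_option maxRecDepth 100000 in
theorem chk14 : chk 14 = true := by decide +kernel

set_option maxRecDepth 100000 in
theorem chk15 : chk 15 = true := by decide +kernel

set_option maxRecDepth 100000 in
theorem chk16 : chk 16 = true := by decide +kernel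

set_option maxRecDepth 100000 in
theorem chk17 : chk 17 = true := by decide +kernel

set_option maxRecDepth 100000 in
theorem chk18 : chk 18 = true := by decide +kernel

set_option maxRecDepth 100000 in
theorem chk19 : chk 19 = true := by decide +kernel

set_option maxRecDepth 100000 in
theorem chk20 : chk 20 = true := by decide +kernel

set_option maxRecDepth 100000 in
theorem chk21 : chk 21 = true := by decide +kernel

set_option maxRecDepth 100000 in
theorem chk22 : chk 22 = true := by decide +kernel

set_option maxRecDepth 100000 in
theorem chk23 : chk 23 = true := by decide +kernel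

set_option maxRecDepth 100000 in
theorem chk24 : chk 24 = true := by decide +kernel

set_option maxRecDepth 100000 in
theorem chk25 : chk 25 = true := by decide +kernel

set_option maxRecDepth 100000 in
theorem chk26 : chk 26 = true := by decide +kernel

set_option maxRecDepth 100000 in
theorem chk27 : chk 27 = true := by decide +kernel

set_option maxRecDepth 100000 in
theorem chk28 : chk 28 = true := by decide +kernel

set_option maxRecDepth 100000 in
theorem chk29 : chk 29 = true := by decide +kernel

set_option maxRecDepth 100000 in
theorem chk30 : chk 30 = true := by decide +kernel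

set_option maxRecDepth 100000 in
theorem chk31 : chk 31 = true := by decide +kernel

theorem chk_all (r : ℕ) (hr : r < 32) : chk r = true := by
  interval_cases r
  · exact chk0
  · exact chk1
  · exact chk2
  · exact chk3
  · exact chk4
  · exact chk5
  · exact chk6
  · exact chk7
  · exact chk8
  · exact chk9
  · exact chk10
  · exact chk11
  · exact chk12
  · exact chk13
  · exact chk14
  · exact chk15
  · exact chk16
  · exact chk17
  · exact chk18
  · exact chk19
  · exact chk20
  · exact chk21
  · exact chk22
  · exact chk23
  · exact chk24
  · exact chk25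
  · exact chk26
  · exact chk27
  · exact chk28
  · exact chk29
  · exact chk30
  · exact chk31

end Pool.Agent.K7.H22.SNP
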