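import Mathlib

set_option autoImplicit false

open MvPolynomial

namespace Pool.Agent.K7.H22.SNP

/-- adjacency inside the core `a1, a2, b1, b2, s` (numbered `0, 1, 2, 3, 4`) -/
def cadj (u v : Fin 5) : Bool :=
  match u.1, v.1 with
  | 0, 2 => true
  | 2, 0 => true
  | 0, 3 => true
  | 3, 0 => true
  | 1, 2 => true
  | 2, 1 => true
  | 1, 3 => true
  | 3, 1 => true
  | 0, 4 => true
  | 4, 0 => true
  | _, _ => false

theorem cadj_symm : ∀ u v : Fin 5, cadj u v = cadj v u := by decide

theorem cadj_irrefl : ∀ u : Fin 5, cadj u u = false := by decide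

/-- a stable subset of the core -/
def CStable (A : Finset (Fin 5)) : Prop := ∀ u ∈ A, ∀ v ∈ A, cadj u v = false

instance (A : Finset (Fin 5)) : Decidable (CStable A) := by unfold CStable; infer_instance

noncomputable section

/-- proper colourings of the core subset `R` by colours `< k` (value `0` outside `R`) -/
def col (k : ℕ) (R : Finset (Fin 5)) : Finset (Fin 5 → ℕ) :=
  (Fintype.piFinset (fun v => if v ∈ R then Finset.range k else {0})).filter
    (fun κ => ∀ u ∈ R, ∀ v ∈ R, cadj u v = true → κ u ≠ κ v)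

theorem mem_col {k : ℕ} {R : Finset (Fin 5)} {κ : Fin 5 → ℕ} :
    κ ∈ col k R ↔ (∀ v ∈ R, κ v < k) ∧ (∀ v, v ∉ R → κ v = 0) ∧
      ∀ u ∈ R, ∀ v ∈ R, cadj u v = true → κ u ≠ κ v := by
  unfold col
  rw [Finset.mem_filter, Fintype.mem_piFinset]
  constructor
  · rintro ⟨h1, h2⟩
    refine ⟨?_, ?_, h2⟩
    · intro v hv
      have := h1 v
      rw [if_pos hv] at this
      simpa using this
    · intro v hv
      have := h1 v
      rw [if_neg hv] at this
      simpa using this
  · rintro ⟨h1, h2, h3⟩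
    refine ⟨?_, h3⟩
    intro v
    split_ifs with h
    · simpa using h1 v h
    · simpa using h2 v h

/-- sum of the variables whose colour is not used on `R ∩ Q` -/
def avail (k : ℕ) (R Q : Finset (Fin 5)) (κ : Fin 5 → ℕ) : MvPolynomial ℕ ℤ :=
  ∑ c ∈ (Finset.range k).filter (fun c => ∀ v ∈ R ∩ Q, κ v ≠ c), X c

/-- the transfer polynomials -/
def F (k : ℕ) (R : Finset (Fin 5)) (i j : ℕ) : MvPolynomial ℕ ℤ :=
  ∑ κ ∈ col k R, (∏ v ∈ R, X (κ v)) * avail k R {2, 3} κ ^ i * avail k R {0, 1} κ ^ j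

/-- extend a colouring of `R \ A` by giving colour `k` to `A` -/
def ext (k : ℕ) (A : Finset (Fin 5)) (κ : Fin 5 → ℕ) : Fin 5 → ℕ :=
  fun v => if v ∈ A then k else κ v

theorem ext_mem {k : ℕ} {R A : Finset (Fin 5)} (hA : A ⊆ R) (hs : CStable A)
    {κ : Fin 5 → ℕ} (hκ : κ ∈ col k (R \ A)) : ext k A κ ∈ col (k + 1) R := by
  rw [mem_col] at hκ ⊢
  obtain ⟨h1, h2, h3⟩ := hκ
  unfold ext
  refine ⟨?_, ?_, ?_⟩
  · intro v hv
    split_ifs with h
    · exact Nat.lt_succ_self k
    · exact (h1 v (Finset.mem_sdiff.2 ⟨hv, h⟩)).trans (Nat.lt_succ_self k)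
  · intro v hv
    rw [if_neg (fun h => hv (hA h))]
    apply h2
    intro h
    exact hv (Finset.mem_sdiff.1 h).1
  · intro u hu v hv huv
    by_cases ha : u ∈ A
    · by_cases hb : v ∈ A
      · rw [hs u ha v hb] at huv
        exact absurd huv (by simp)
      · rw [if_pos ha, if_neg hb]
        exact (h1 v (Finset.mem_sdiff.2 ⟨hv, hb⟩)).ne'
    · by_cases hb : v ∈ A
      · rw [if_neg ha, if_pos hb]
        exact (h1 u (Finset.mem_sdiff.2 ⟨hu, ha⟩)).ne
      · rw [if_neg ha, if_neg hb]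
        exact h3 u (Finset.mem_sdiff.2 ⟨hu, ha⟩) v (Finset.mem_sdiff.2 ⟨hv, hb⟩) huv

/-- decomposition of the sum over colourings with `k+1` colours according to the class of the
last colour -/
theorem sum_col_succ (k : ℕ) (R : Finset (Fin 5)) (g : (Fin 5 → ℕ) → MvPolynomial ℕ ℤ) :
    ∑ κ ∈ col (k + 1) R, g κ =
      ∑ A ∈ R.powerset.filter CStable, ∑ κ ∈ col k (R \ A), g (ext k A κ) := by
  rw [Finset.sum_sigma']
  symm
  apply Finset.sum_bij (fun (x : Σ _ : Finset (Fin 5), (Fin 5 → ℕ)) _ => ext k x.1 x.2)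
  · rintro ⟨A, κ⟩ h
    rw [Finset.mem_sigma, Finset.mem_filter, Finset.mem_powerset] at h
    exact ext_mem h.1.1 h.1.2 h.2
  · rintro ⟨A, κ⟩ h ⟨A', κ'⟩ h' he
    rw [Finset.mem_sigma, Finset.mem_filter, Finset.mem_powerset] at h h'
    simp only at h h' he
    rw [mem_col] at h h'
    have hval : ∀ v, (if v ∈ A then k else κ v) = (if v ∈ A' then k else κ' v) := fun v =>
      congrFun he v
    have hAA : A = A' := by
      ext v
      constructor
      · intro hv
        by_contra hn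
        have := hval v
        rw [if_pos hv, if_neg hn] at this
        exact absurd this.symm (h'.2.1 v (Finset.mem_sdiff.2 ⟨h.1.1 hv, hn⟩)).ne
      · intro hv
        by_contra hn
        have := hval v
        rw [if_neg hn, if_pos hv] at this
        exact absurd this (h.2.1 v (Finset.mem_sdiff.2 ⟨h'.1.1 hv, hn⟩)).ne
    subst hAA
    have : κ = κ' := by
      funext v
      by_cases hv : v ∈ A
      · rw [h.2.2.1 v (by simp [hv]), h'.2.2.1 v (by simp [hv])]
      · have := hval v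
        rwa [if_neg hv, if_neg hv] at this
    subst this
    rfl
  · intro κ hκ
    rw [mem_col] at hκ
    obtain ⟨h1, h2, h3⟩ := hκ
    refine ⟨⟨R.filter (fun v => κ v = k), fun v => if v ∈ R ∧ κ v ≠ k then κ v else 0⟩, ?_, ?_⟩
    · rw [Finset.mem_sigma, Finset.mem_filter, Finset.mem_powerset]
      refine ⟨⟨Finset.filter_subset _ _, ?_⟩, ?_⟩
      · intro u hu v hv
        rw [Finset.mem_filter] at hu hv
        by_contra hc
        have hc' : cadj u v = true := by simpa using hc
        exact h3 u hu.1 v hv.1 hc' (hu.2.trans hv.2.symm)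
      · rw [mem_col]
        refine ⟨?_, ?_, ?_⟩
        · intro v hv
          rw [Finset.mem_sdiff, Finset.mem_filter] at hv
          have hne : κ v ≠ k := fun h => hv.2 ⟨hv.1, h⟩
          simp only
          rw [if_pos ⟨hv.1, hne⟩]
          have := h1 v hv.1
          omega
        · intro v hv
          rw [Finset.mem_sdiff, Finset.mem_filter] at hv
          simp only
          rw [if_neg]
          rintro ⟨h4, h5⟩
          exact hv ⟨h4, fun h => h5 h.2⟩
        · intro u hu v hv huv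
          rw [Finset.mem_sdiff, Finset.mem_filter] at hu hv
          simp only
          rw [if_pos ⟨hu.1, fun h => hu.2 ⟨hu.1, h⟩⟩, if_pos ⟨hv.1, fun h => hv.2 ⟨hv.1, h⟩⟩]
          exact h3 u hu.1 v hv.1 huv
    · funext v
      unfold ext
      simp only [Finset.mem_filter]
      by_cases hv : v ∈ R
      · by_cases hk : κ v = k
        · rw [if_pos ⟨hv, hk⟩, hk]
        · rw [if_neg (fun h => hk h.2), if_pos ⟨hv, hk⟩]
      · rw [if_neg (fun h => hv h.1), if_neg (fun h => hv h.1), h2 v hv]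
  · intro x _
    rfl

theorem prod_ext {k : ℕ} {R A : Finset (Fin 5)} (hA : A ⊆ R) (κ : Fin 5 → ℕ) :
    ∏ v ∈ R, (X (ext k A κ v) : MvPolynomial ℕ ℤ) = X k ^ A.card * ∏ v ∈ R \ A, X (κ v) := by
  rw [← Finset.prod_sdiff hA, mul_comm]
  congr 1
  · rw [Finset.prod_congr rfl (g := fun _ => X k), Finset.prod_const]
    intro v hv
    unfold ext
    rw [if_pos hv]
  · apply Finset.prod_congr rfl
    intro v hv
    unfold ext
    rw [if_neg (Finset.mem_sdiff.1 hv).2]

theorem avail_ext {k : ℕ} {R A Q : Finset (Fin 5)} (hA : A ⊆ R)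
    {κ : Fin 5 → ℕ} (hκ : κ ∈ col k (R \ A)) :
    avail (k + 1) R Q (ext k A κ) =
      (if A ∩ Q = ∅ then X k else 0) + avail k (R \ A) Q κ := by
  rw [mem_col] at hκ
  obtain ⟨h1, h2, h3⟩ := hκ
  unfold avail
  rw [Finset.range_add_one, Finset.filter_insert]
  have hcond : (∀ v ∈ R ∩ Q, ext k A κ v ≠ k) ↔ A ∩ Q = ∅ := by
    constructor
    · intro h
      rw [Finset.eq_empty_iff_forall_notMem]
      intro v hv
      rw [Finset.mem_inter] at hv
      have := h v (Finset.mem_inter.2 ⟨hA hv.1, hv.2⟩)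
      unfold ext at this
      rw [if_pos hv.1] at this
      exact this rfl
    · intro h v hv
      rw [Finset.mem_inter] at hv
      have hvA : v ∉ A := by
        intro hvA
        have : v ∈ A ∩ Q := Finset.mem_inter.2 ⟨hvA, hv.2⟩
        rw [h] at this
        simp at this
      unfold ext
      rw [if_neg hvA]
      exact (h1 v (Finset.mem_sdiff.2 ⟨hv.1, hvA⟩)).ne
  have hfil : (Finset.range k).filter (fun c => ∀ v ∈ R ∩ Q, ext k A κ v ≠ c) =
      (Finset.range k).filter (fun c => ∀ v ∈ (R \ A) ∩ Q, κ v ≠ c) := by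
    apply Finset.filter_congr
    intro c hc
    rw [Finset.mem_range] at hc
    constructor
    · intro h v hv
      rw [Finset.mem_inter, Finset.mem_sdiff] at hv
      have := h v (Finset.mem_inter.2 ⟨hv.1.1, hv.2⟩)
      unfold ext at this
      rwa [if_neg hv.1.2] at this
    · intro h v hv
      rw [Finset.mem_inter] at hv
      unfold ext
      split_ifs with hvA
      · exact hc.ne'
      · exact h v (Finset.mem_inter.2 ⟨Finset.mem_sdiff.2 ⟨hv.1, hvA⟩, hv.2⟩)
  rw [hfil]
  by_cases h : A ∩ Q = ∅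
  · rw [if_pos (hcond.2 h), if_pos h, Finset.sum_insert]
    simp
  · rw [if_neg (fun h' => h (hcond.1 h')), if_neg h, zero_add]

theorem F_succ (k : ℕ) (R : Finset (Fin 5)) (i j : ℕ) :
    F (k + 1) R i j = ∑ A ∈ R.powerset.filter CStable,
      ∑ i' ∈ Finset.range (i + 1), ∑ j' ∈ Finset.range (j + 1),
        X k ^ A.card * ((if A ∩ {2, 3} = ∅ then (X k : MvPolynomial ℕ ℤ) else 0) ^ i' * ((i.choose i' : ℕ) : MvPolynomial ℕ ℤ)) *
          ((if A ∩ {0, 1} = ∅ then (X k : MvPolynomial ℕ ℤ) else 0) ^ j' * ((j.choose j' : ℕ) : MvPolynomial ℕ ℤ)) *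
          F k (R \ A) (i - i') (j - j') := by
  unfold F
  rw [sum_col_succ]
  apply Finset.sum_congr rfl
  intro A hA
  rw [Finset.mem_filter, Finset.mem_powerset] at hA
  have : ∀ κ ∈ col k (R \ A), (∏ v ∈ R, (X (ext k A κ v) : MvPolynomial ℕ ℤ)) *
      avail (k + 1) R {2, 3} (ext k A κ) ^ i * avail (k + 1) R {0, 1} (ext k A κ) ^ j =
      ∑ i' ∈ Finset.range (i + 1), ∑ j' ∈ Finset.range (j + 1),
        X k ^ A.card * ((if A ∩ {2, 3} = ∅ then (X k : MvPolynomial ℕ ℤ) else 0) ^ i' * ((i.choose i' : ℕ) : MvPolynomial ℕ ℤ)) *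
          ((if A ∩ {0, 1} = ∅ then (X k : MvPolynomial ℕ ℤ) else 0) ^ j' * ((j.choose j' : ℕ) : MvPolynomial ℕ ℤ)) *
          ((∏ v ∈ R \ A, X (κ v)) * avail k (R \ A) {2, 3} κ ^ (i - i') *
            avail k (R \ A) {0, 1} κ ^ (j - j')) := by
    intro κ hκ
    rw [prod_ext hA.1, avail_ext hA.1 hκ, avail_ext hA.1 hκ, add_pow, add_pow,
      Finset.mul_sum, Finset.sum_comm]
    apply Finset.sum_congr rfl
    intro j' _
    rw [Finset.mul_sum, Finset.sum_mul]
    apply Finset.sum_congr rfl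
    intro i' _
    ring
  rw [Finset.sum_congr rfl this, Finset.sum_comm]
  apply Finset.sum_congr rfl
  intro i' _
  rw [Finset.sum_comm]
  apply Finset.sum_congr rfl
  intro j' _
  rw [Finset.mul_sum]

end

end Pool.Agent.K7.H22.SNP
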