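import Pool.Agent.K7.H22.SNP.Sem

set_option autoImplicit false

open MvPolynomial

namespace Pool.Agent.K7.H22.SNP

/-- the sublist of `P` marked by the bit mask `m` -/
def selM : List (List ℕ) → ℕ → List (List ℕ)
  | [], _ => []
  | p :: P, m => bif Nat.beq (m % 2) 1 then p :: selM P (m / 2) else selM P (m / 2)

def selG : List (List (List ℕ)) → List ℕ → List (List ℕ)
  | P :: PP, m :: ms => selM P m ++ selG PP ms
  | [], _ => []
  | _ :: _, [] => []

theorem evM_eq (W : List ℕ → MvPolynomial ℕ ℤ) (P : List (List ℕ)) (m : ℕ) :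
    evM W P m = ((selM P m).map W).sum := by
  induction P generalizing m with
  | nil => simp [evM, selM]
  | cons p P ih =>
    simp only [evM, selM]
    by_cases h : m % 2 = 1
    · rw [if_pos h, h, ih]
      simp
    · have : Nat.beq (m % 2) 1 = false := by
        rw [← Bool.not_eq_true]
        intro h'
        exact h (Nat.eq_of_beq_eq_true h')
      rw [if_neg h, this, ih]
      simp

theorem evMG_eq (W : List ℕ → MvPolynomial ℕ ℤ) (PP : List (List (List ℕ))) (ms : List ℕ) :
    evMG W PP ms = ((selG PP ms).map W).sum := by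
  induction PP generalizing ms with
  | nil => simp [evMG, selG]
  | cons P PP ih =>
    cases ms with
    | nil => simp [evMG, selG]
    | cons m ms => simp [evMG, selG, evM_eq, ih]

/-- the masks are correct -/
def indOK : List (List ℕ) → List (List ℕ) → Bool
  | l :: P, ms :: msl => (hs l).isPerm (selG pts ms) && indOK P msl
  | [], [] => true
  | _, _ => false

set_option maxRecDepth 100000 in
theorem indOK_all : ∀ n ∈ List.range 13, indOK (pts.getD n []) (ind.getD n []) = true := by
  decide +kernel

/-- the lists in `pts` are partitions of the right size -/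
theorem pts_ok : ∀ n ∈ List.range 13, ∀ l ∈ pts.getD n [], l.sum = n ∧ l.IsChain (· ≥ ·) := by
  decide +kernel

/-- bit mask to set -/
def toF (r : ℕ) : Finset (Fin 5) := Finset.univ.filter (fun v => Nat.testBit r v.1)

theorem subs_ok1 : ∀ r ∈ List.range 32,
    (toF r).powerset.filter CStable = ((subs r).map toF).toFinset := by
  decide +kernel

theorem subs_ok2 : ∀ r ∈ List.range 32, ((subs r).map toF).Nodup := by
  decide +kernel

theorem subs_ok3 : ∀ r ∈ List.range 32, ∀ s ∈ subs r,
    toF r \ toF s = toF (r - s) ∧ (toF s).card + pc (r - s) = pc r := by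
  decide +kernel

theorem subs_ok4 : ∀ r ∈ List.range 32, ∀ s ∈ subs r,
    ((toF s ∩ {2, 3} = ∅) ↔ Nat.land s 12 = 0) ∧ ((toF s ∩ {0, 1} = ∅) ↔ Nat.land s 3 = 0) := by
  decide +kernel

theorem fits_zeros : pts.length = zeros.length ∧
    ∀ n ∈ List.range 13, (pts.getD n []).length ≤ (zeros.getD n []).length := by
  decide +kernel

theorem zeroG_zeros : zeroG zeros = true := by decide +kernel

end Pool.Agent.K7.H22.SNP
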