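import Pool.Agent.K7.H22.SNP.Main

set_option autoImplicit false

open MvPolynomial

namespace Pool.Agent.K7.H22.SNP

noncomputable section

/-- the Schur expansion as a finitely supported function -/
def cOf : List (List ℕ) → List ℤ → (YoungDiagram →₀ ℕ)
  | p :: P, a :: v => Finsupp.single (yd p) a.toNat + cOf P v
  | [], _ => 0
  | _ :: _, [] => 0

theorem cOf_sum (k : ℕ) (P : List (List ℕ)) (v : List ℤ) (h : ∀ a ∈ v, 0 ≤ a) :
    (cOf P v).sum (fun μ a => a • S k μ) = evL (fun l => S k (yd l)) P v := by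
  classical
  induction P generalizing v with
  | nil => simp [cOf]
  | cons p P ih =>
    cases v with
    | nil => simp [cOf]
    | cons a v =>
      simp only [cOf]
      rw [Finsupp.sum_add_index' (by simp) (by intro μ a b; rw [add_smul]), ih v (fun b hb => h b (by simp [hb])),
        Finsupp.sum_single_index (by simp), evL_cons]
      congr 1
      have ha := h a (by simp)
      conv_rhs => rw [← Int.toNat_of_nonneg ha]
      rw [natCast_zsmul]

theorem top_nonneg : ∀ a ∈ C 31 4 3, 0 ≤ a := by decide +kernel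

/-- The chromatic polynomial in `k` variables of the graph is Schur positive. -/
theorem schur_positive (k : ℕ) :
    (∑ᶠ κ : {κ : V12 → Fin k // ∀ u v, G12.Adj u v → κ u ≠ κ v},
      ∏ v, (MvPolynomial.X ((κ.1 v : ℕ)) : MvPolynomial ℕ ℤ)) =
    (cOf (pts.getD 12 []) (C 31 4 3)).sum (fun μ a => a • S k μ) := by
  rw [chromatic_eq, cOf_sum k _ _ top_nonneg]
  have h1 : toF 31 = Finset.univ := by decide +kernel
  have h2 : pc 31 + 4 + 3 = 12 := by decide +kernel
  rw [← h1, F_eq k 31 (by norm_num) 4 (by norm_num) 3 (by norm_num), h2]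

/-- exponents are contents of proper colourings -/
theorem mem_support_iff (k : ℕ) (α : ℕ →₀ ℕ) :
    α ∈ (∑ᶠ κ : {κ : V12 → Fin k // ∀ u v, G12.Adj u v → κ u ≠ κ v},
      ∏ v, (MvPolynomial.X ((κ.1 v : ℕ)) : MvPolynomial ℕ ℤ)).support ↔
    ∃ κ : V12 → Fin k, (∀ u v, G12.Adj u v → κ u ≠ κ v) ∧
      ∑ v, Finsupp.single ((κ v : ℕ)) 1 = α := by
  classical
  have : Fintype {κ : V12 → Fin k // ∀ u v, G12.Adj u v → κ u ≠ κ v} := Fintype.ofFinite _
  rw [finsum_eq_sum_of_fintype, MvPolynomial.mem_support_iff, MvPolynomial.coeff_sum]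
  have hc : ∀ κ : {κ : V12 → Fin k // ∀ u v, G12.Adj u v → κ u ≠ κ v},
      MvPolynomial.coeff α (∏ v, (MvPolynomial.X ((κ.1 v : ℕ)) : MvPolynomial ℕ ℤ)) =
        if ∑ v, Finsupp.single ((κ.1 v : ℕ)) 1 = α then 1 else 0 := by
    intro κ
    have : (∏ v, (MvPolynomial.X ((κ.1 v : ℕ)) : MvPolynomial ℕ ℤ)) =
        MvPolynomial.monomial (∑ v, Finsupp.single ((κ.1 v : ℕ)) 1) 1 := by
      rw [MvPolynomial.monomial_sum_one]
      rfl
    rw [this, MvPolynomial.coeff_monomial]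
  rw [Finset.sum_congr rfl (fun κ _ => hc κ), Finset.sum_boole]
  rw [Ne, Nat.cast_eq_zero, Finset.card_eq_zero, ← Ne, ← Finset.nonempty_iff_ne_empty]
  constructor
  · rintro ⟨κ, hκ⟩
    rw [Finset.mem_filter] at hκ
    exact ⟨κ.1, κ.2, hκ.2⟩
  · rintro ⟨κ, hκ, h⟩
    exact ⟨⟨κ, hκ⟩, Finset.mem_filter.2 ⟨Finset.mem_univ _, h⟩⟩

/-- a colouring with content `(8, 2, 2)` -/
def col1 : V12 → Fin 3
  | .inl u => if u = 0 ∨ u = 1 then 1 else if u = 2 ∨ u = 3 then 2 else 0
  | .inr _ => 0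

/-- a colouring with content `(6, 6, 0)` -/
def col2 : V12 → Fin 3
  | .inl u => if u = 0 ∨ u = 1 then 0 else 1
  | .inr (.inl _) => 0
  | .inr (.inr _) => 1

theorem col1_proper : ∀ u v, G12.Adj u v → col1 u ≠ col1 v := by
  intro u v h
  change adjB u v = true at h
  revert h
  revert u v
  decide

theorem col2_proper : ∀ u v, G12.Adj u v → col2 u ≠ col2 v := by
  intro u v h
  change adjB u v = true at h
  revert h
  revert u v
  decide

/-- the exponent vector `(a, b, c)` -/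
def vec3 (a b c : ℕ) : ℕ →₀ ℕ :=
  Finsupp.single 0 a + Finsupp.single 1 b + Finsupp.single 2 c

theorem content_apply (κ : V12 → Fin 3) (c : ℕ) :
    (∑ v, Finsupp.single ((κ v : ℕ)) 1 : ℕ →₀ ℕ) c =
      (Finset.univ.filter (fun v : Fin 5 => (κ (.inl v) : ℕ) = c)).card +
      ((Finset.univ.filter (fun v : Fin 4 => (κ (.inr (.inl v)) : ℕ) = c)).card +
      (Finset.univ.filter (fun v : Fin 3 => (κ (.inr (.inr v)) : ℕ) = c)).card) := by
  rw [Finsupp.finsetSum_apply, Fintype.sum_sum_type, Fintype.sum_sum_type]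
  simp only [Finsupp.single_apply, Finset.sum_boole, Nat.cast_id]

theorem content_ext (κ : V12 → Fin 3) (a b c : ℕ)
    (h : (∑ v, Finsupp.single ((κ v : ℕ)) 1 : ℕ →₀ ℕ) 0 = a ∧
      (∑ v, Finsupp.single ((κ v : ℕ)) 1 : ℕ →₀ ℕ) 1 = b ∧
      (∑ v, Finsupp.single ((κ v : ℕ)) 1 : ℕ →₀ ℕ) 2 = c) :
    (∑ v, Finsupp.single ((κ v : ℕ)) 1 : ℕ →₀ ℕ) = vec3 a b c := by
  ext i
  unfold vec3
  rw [Finsupp.add_apply, Finsupp.add_apply]
  by_cases h0 : i = 0
  · subst h0; rw [h.1]; simp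
  by_cases h1 : i = 1
  · subst h1; rw [h.2.1]; simp
  by_cases h2 : i = 2
  · subst h2; rw [h.2.2]; simp
  rw [content_apply]
  simp only [Finsupp.single_apply]
  rw [if_neg (fun h => h0 h.symm), if_neg (fun h => h1 h.symm), if_neg (fun h => h2 h.symm)]
  have hne : ∀ v, ¬ ((κ v : ℕ) = i) := by
    intro v hv
    have := (κ v).2
    omega
  simp [hne]

theorem mem1 : vec3 8 2 2 ∈ (∑ᶠ κ : {κ : V12 → Fin 3 // ∀ u v, G12.Adj u v → κ u ≠ κ v},
      ∏ v, (MvPolynomial.X ((κ.1 v : ℕ)) : MvPolynomial ℕ ℤ)).support := by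
  rw [mem_support_iff]
  refine ⟨col1, col1_proper, content_ext _ _ _ _ ?_⟩
  rw [content_apply, content_apply, content_apply]
  decide +kernel

theorem mem2 : vec3 6 6 0 ∈ (∑ᶠ κ : {κ : V12 → Fin 3 // ∀ u v, G12.Adj u v → κ u ≠ κ v},
      ∏ v, (MvPolynomial.X ((κ.1 v : ℕ)) : MvPolynomial ℕ ℤ)).support := by
  rw [mem_support_iff]
  refine ⟨col2, col2_proper, content_ext _ _ _ _ ?_⟩
  rw [content_apply, content_apply, content_apply]
  decide +kernel

theorem not_mem : vec3 7 4 1 ∉ (∑ᶠ κ : {κ : V12 → Fin 3 // ∀ u v, G12.Adj u v → κ u ≠ κ v},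
      ∏ v, (MvPolynomial.X ((κ.1 v : ℕ)) : MvPolynomial ℕ ℤ)).support := by
  rw [mem_support_iff]
  rintro ⟨κ, hκ, h⟩
  have h0 := DFunLike.congr_fun h 0
  have h2 := DFunLike.congr_fun h 2
  rw [content_apply] at h0 h2
  have v0 : (vec3 7 4 1) 0 = 7 := by simp [vec3]
  have v2 : (vec3 7 4 1) 2 = 1 := by simp [vec3]
  rw [v0] at h0
  rw [v2] at h2
  -- the five core colours
  have hadj : ∀ u v : Fin 5, cadj u v = true → (κ (.inl u) : ℕ) ≠ (κ (.inl v) : ℕ) := by
    intro u v huv he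
    exact hκ (.inl u) (.inl v) huv (Fin.ext he)
  have hTA : ∀ x : Fin 4, ∀ u : Fin 5, (u = 2 ∨ u = 3) →
      (κ (.inl u) : ℕ) ≠ (κ (.inr (.inl x)) : ℕ) := by
    intro x u hu he
    refine hκ (.inl u) (.inr (.inl x)) ?_ (Fin.ext he)
    change (u == 2 || u == 3) = true
    simpa using hu
  have hTB : ∀ x : Fin 3, ∀ u : Fin 5, (u = 0 ∨ u = 1) →
      (κ (.inl u) : ℕ) ≠ (κ (.inr (.inr x)) : ℕ) := by
    intro x u hu he
    refine hκ (.inl u) (.inr (.inr x)) ?_ (Fin.ext he)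
    change (u == 0 || u == 1) = true
    simpa using hu
  have hA4 : (Finset.univ.filter (fun v : Fin 4 => (κ (.inr (.inl v)) : ℕ) = 0)).card ≤ 4 := by
    simpa using Finset.card_filter_le (Finset.univ : Finset (Fin 4))
      (fun v : Fin 4 => (κ (.inr (.inl v)) : ℕ) = 0)
  have hB3 : (Finset.univ.filter (fun v : Fin 3 => (κ (.inr (.inr v)) : ℕ) = 0)).card ≤ 3 := by
    simpa using Finset.card_filter_le (Finset.univ : Finset (Fin 3))
      (fun v : Fin 3 => (κ (.inr (.inr v)) : ℕ) = 0)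
  have hA0 : ((κ (.inl 2) : ℕ) = 0 ∨ (κ (.inl 3) : ℕ) = 0) →
      (Finset.univ.filter (fun v : Fin 4 => (κ (.inr (.inl v)) : ℕ) = 0)).card = 0 := by
    intro hc
    rw [Finset.card_eq_zero, Finset.filter_eq_empty_iff]
    intro x _ hx
    rcases hc with hc | hc
    · exact hTA x 2 (Or.inl rfl) (hc.trans hx.symm)
    · exact hTA x 3 (Or.inr rfl) (hc.trans hx.symm)
  have hB0 : ((κ (.inl 0) : ℕ) = 0 ∨ (κ (.inl 1) : ℕ) = 0) →
      (Finset.univ.filter (fun v : Fin 3 => (κ (.inr (.inr v)) : ℕ) = 0)).card = 0 := by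
    intro hc
    rw [Finset.card_eq_zero, Finset.filter_eq_empty_iff]
    intro x _ hx
    rcases hc with hc | hc
    · exact hTB x 0 (Or.inl rfl) (hc.trans hx.symm)
    · exact hTB x 1 (Or.inr rfl) (hc.trans hx.symm)
  have hcore : ∀ c : ℕ, (Finset.univ.filter (fun v : Fin 5 => (κ (.inl v) : ℕ) = c)).card =
      (if (κ (.inl 0) : ℕ) = c then 1 else 0) + (if (κ (.inl 1) : ℕ) = c then 1 else 0) +
      (if (κ (.inl 2) : ℕ) = c then 1 else 0) + (if (κ (.inl 3) : ℕ) = c then 1 else 0) +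
      (if (κ (.inl 4) : ℕ) = c then 1 else 0) := by
    intro c
    rw [Finset.card_filter, Fin.sum_univ_five]
  rw [hcore] at h0 h2
  have e02 := hadj 0 2 (by decide)
  have e03 := hadj 0 3 (by decide)
  have e12 := hadj 1 2 (by decide)
  have e13 := hadj 1 3 (by decide)
  have e04 := hadj 0 4 (by decide)
  have l0 := (κ (.inl 0)).2
  have l1 := (κ (.inl 1)).2
  have l2 := (κ (.inl 2)).2
  have l3 := (κ (.inl 3)).2
  have l4 := (κ (.inl 4)).2
  generalize (κ (.inl 0) : ℕ) = x0 at *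
  generalize (κ (.inl 1) : ℕ) = x1 at *
  generalize (κ (.inl 2) : ℕ) = x2 at *
  generalize (κ (.inl 3) : ℕ) = x3 at *
  generalize (κ (.inl 4) : ℕ) = x4 at *
  have ile : ∀ p : Prop, ∀ _ : Decidable p, (if p then 1 else 0 : ℕ) ≤ 1 := by
    intro p _
    split_ifs <;> omega
  by_cases hP : x0 = 0 ∨ x1 = 0
  · rw [hB0 hP] at h0
    have z2 : x2 ≠ 0 := by omega
    have z3 : x3 ≠ 0 := by omega
    rw [if_neg z2, if_neg z3] at h0
    have i0 := ile (x0 = 0) inferInstance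
    have i1 := ile (x1 = 0) inferInstance
    have i4 := ile (x4 = 0) inferInstance
    by_cases hx0 : x0 = 0
    · have z4 : x4 ≠ 0 := by omega
      rw [if_neg z4] at h0
      omega
    · rw [if_neg hx0] at h0
      omega
  · by_cases hQ : x2 = 0 ∨ x3 = 0
    · rw [hA0 hQ] at h0
      have z0 : x0 ≠ 0 := by omega
      have z1 : x1 ≠ 0 := by omega
      rw [if_neg z0, if_neg z1] at h0
      have i2 := ile (x2 = 0) inferInstance
      have i3 := ile (x3 = 0) inferInstance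
      have i4 := ile (x4 = 0) inferInstance
      omega
    · by_cases hx0 : x0 = 2
      · have y1 : x1 = 2 := by omega
        rw [if_pos hx0, if_pos y1] at h2
        omega
      · have y2 : x2 = 2 := by omega
        have y3 : x3 = 2 := by omega
        rw [if_pos y2, if_pos y3] at h2
        omega

end

end Pool.Agent.K7.H22.SNP
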