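import Pool.Agent.K7.H22.SNP.Core

set_option autoImplicit false

open MvPolynomial

namespace Pool.Agent.K7.H22.SNP

/-- the vertex set -/
abbrev V12 : Type := Fin 5 ⊕ (Fin 4 ⊕ Fin 3)

/-- adjacency of the counterexample graph -/
def adjB : V12 → V12 → Bool
  | .inl u, .inl v => cadj u v
  | .inl u, .inr (.inl _) => u == 2 || u == 3
  | .inr (.inl _), .inl u => u == 2 || u == 3
  | .inl u, .inr (.inr _) => u == 0 || u == 1
  | .inr (.inr _), .inl u => u == 0 || u == 1
  | .inr _, .inr _ => false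

/-- the counterexample graph on twelve vertices -/
def G12 : SimpleGraph V12 where
  Adj u v := adjB u v = true
  symm := by
    constructor
    intro u v h
    revert h
    revert u v
    decide
  loopless := by
    constructor
    intro u
    revert u
    decide

noncomputable section

/-- the colours available -/
def aset (k : ℕ) (Q : Finset (Fin 5)) (κ : Fin 5 → ℕ) : Finset ℕ :=
  (Finset.range k).filter (fun c => ∀ v ∈ Finset.univ ∩ Q, κ v ≠ c)

theorem chromatic_eq (k : ℕ) :
    (∑ᶠ κ : {κ : V12 → Fin k // ∀ u v, G12.Adj u v → κ u ≠ κ v},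
      ∏ v, (MvPolynomial.X ((κ.1 v : ℕ)) : MvPolynomial ℕ ℤ)) = F k Finset.univ 4 3 := by
  classical
  have : Fintype {κ : V12 → Fin k // ∀ u v, G12.Adj u v → κ u ≠ κ v} := Fintype.ofFinite _
  rw [finsum_eq_sum_of_fintype]
  have hF : F k Finset.univ 4 3 = ∑ κ ∈ col k Finset.univ,
      ∑ p ∈ Fintype.piFinset (fun _ : Fin 4 => aset k {2, 3} κ),
      ∑ q ∈ Fintype.piFinset (fun _ : Fin 3 => aset k {0, 1} κ),
        (∏ v, (X (κ v) : MvPolynomial ℕ ℤ)) * (∏ x, X (p x)) * (∏ y, X (q y)) := by
    unfold F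
    apply Finset.sum_congr rfl
    intro κ _
    have h1 : avail k Finset.univ {2, 3} κ ^ 4 =
        ∑ p ∈ Fintype.piFinset (fun _ : Fin 4 => aset k {2, 3} κ),
          ∏ x, (X (p x) : MvPolynomial ℕ ℤ) := by
      rw [← Finset.prod_univ_sum (fun _ : Fin 4 => aset k {2, 3} κ)
        (fun _ c => (X c : MvPolynomial ℕ ℤ))]
      simp [avail, aset]
    have h2 : avail k Finset.univ {0, 1} κ ^ 3 =
        ∑ p ∈ Fintype.piFinset (fun _ : Fin 3 => aset k {0, 1} κ),
          ∏ x, (X (p x) : MvPolynomial ℕ ℤ) := by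
      rw [← Finset.prod_univ_sum (fun _ : Fin 3 => aset k {0, 1} κ)
        (fun _ c => (X c : MvPolynomial ℕ ℤ))]
      simp [avail, aset]
    rw [h1, h2, Finset.mul_sum]
    rw [Finset.sum_comm (s := Fintype.piFinset (fun _ : Fin 4 => aset k {2, 3} κ))]
    apply Finset.sum_congr rfl
    intro q _
    rw [Finset.mul_sum, Finset.sum_mul]
  rw [hF, Finset.sum_sigma', Finset.sum_sigma']
  apply Finset.sum_bij (fun (κ : {κ : V12 → Fin k // ∀ u v, G12.Adj u v → κ u ≠ κ v}) _ =>
    (⟨⟨fun v => (κ.1 (.inl v) : ℕ), fun x => (κ.1 (.inr (.inl x)) : ℕ)⟩,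
      fun y => (κ.1 (.inr (.inr y)) : ℕ)⟩ :
      Σ _ : (Σ _ : (Fin 5 → ℕ), (Fin 4 → ℕ)), (Fin 3 → ℕ)))
  · rintro ⟨κ, hκ⟩ _
    rw [Finset.mem_sigma, Finset.mem_sigma]
    simp only
    refine ⟨⟨?_, ?_⟩, ?_⟩
    · rw [mem_col]
      refine ⟨fun v _ => (κ _).2, fun v hv => absurd (Finset.mem_univ v) hv, ?_⟩
      intro u _ v _ huv h
      exact hκ (.inl u) (.inl v) huv (Fin.ext h)
    · rw [Fintype.mem_piFinset]
      intro x
      unfold aset
      rw [Finset.mem_filter, Finset.mem_range]
      refine ⟨(κ _).2, ?_⟩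
      intro v hv h
      rw [Finset.mem_inter] at hv
      refine hκ (.inl v) (.inr (.inl x)) ?_ (Fin.ext h)
      have h2 := hv.2
      change (v == 2 || v == 3) = true
      simpa using h2
    · rw [Fintype.mem_piFinset]
      intro x
      unfold aset
      rw [Finset.mem_filter, Finset.mem_range]
      refine ⟨(κ _).2, ?_⟩
      intro v hv h
      rw [Finset.mem_inter] at hv
      refine hκ (.inl v) (.inr (.inr x)) ?_ (Fin.ext h)
      have h2 := hv.2
      change (v == 0 || v == 1) = true
      simpa using h2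
  · rintro ⟨κ, hκ⟩ _ ⟨κ', hκ'⟩ _ h
    apply Subtype.ext
    simp only [Sigma.mk.injEq, heq_eq_eq] at h
    obtain ⟨⟨h1, h2⟩, h3⟩ := h
    funext v
    apply Fin.ext
    rcases v with v | v | v
    · exact congrFun h1 v
    · exact congrFun h2 v
    · exact congrFun h3 v
  · rintro ⟨⟨κ, p⟩, q⟩ h
    rw [Finset.mem_sigma, Finset.mem_sigma, mem_col, Fintype.mem_piFinset,
      Fintype.mem_piFinset] at h
    simp only at h
    obtain ⟨⟨⟨h1, -, h2⟩, h3⟩, h4⟩ := h
    have hp : ∀ x, p x < k ∧ ∀ v, (v = 2 ∨ v = 3) → κ v ≠ p x := by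
      intro x
      have := h3 x
      unfold aset at this
      rw [Finset.mem_filter, Finset.mem_range] at this
      refine ⟨this.1, ?_⟩
      intro v hv
      apply this.2
      simpa using hv
    have hq : ∀ x, q x < k ∧ ∀ v, (v = 0 ∨ v = 1) → κ v ≠ q x := by
      intro x
      have := h4 x
      unfold aset at this
      rw [Finset.mem_filter, Finset.mem_range] at this
      refine ⟨this.1, ?_⟩
      intro v hv
      apply this.2
      simpa using hv
    let K : V12 → Fin k := fun v => match v with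
      | .inl v => ⟨κ v, h1 v (Finset.mem_univ v)⟩
      | .inr (.inl x) => ⟨p x, (hp x).1⟩
      | .inr (.inr x) => ⟨q x, (hq x).1⟩
    have hK : ∀ u v, G12.Adj u v → K u ≠ K v := by
      intro u v huv he
      have he' := congrArg Fin.val he
      change adjB u v = true at huv
      rcases u with u | u | u <;> rcases v with v | v | v
      · exact h2 u (Finset.mem_univ _) v (Finset.mem_univ _) huv he'
      · exact (hp v).2 u (by simpa [adjB] using huv) he'
      · exact (hq v).2 u (by simpa [adjB] using huv) he'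
      · exact (hp u).2 v (by simpa [adjB] using huv) he'.symm
      · simp [adjB] at huv
      · simp [adjB] at huv
      · exact (hq u).2 v (by simpa [adjB] using huv) he'.symm
      · simp [adjB] at huv
      · simp [adjB] at huv
    exact ⟨⟨K, hK⟩, Finset.mem_univ _, rfl⟩
  · rintro ⟨κ, hκ⟩ _
    simp only
    rw [Fintype.prod_sum_type, Fintype.prod_sum_type, mul_assoc]

end

end Pool.Agent.K7.H22.SNP
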