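import Pool.Agent.K7.H22.SNP.Branch

set_option autoImplicit false

open MvPolynomial

namespace Pool.Agent.K7.H22.SNP

noncomputable section

/-- Young diagram of a (weakly decreasing) list of row lengths, trailing zeros allowed. -/
def yd (l : List ℕ) : YoungDiagram :=
  if h : l.SortedGE then YoungDiagram.ofRowLens l h else ⊥

theorem mem_yd {l : List ℕ} (h : l.SortedGE) {i j : ℕ} : (i, j) ∈ yd l ↔ j < l.getD i 0 := by
  unfold yd
  rw [dif_pos h, YoungDiagram.mem_ofRowLens]
  constructor
  · rintro ⟨h1, h2⟩
    simp only at h1 h2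
    rw [List.getD_eq_getElem _ _ h1]
    exact h2
  · intro h1
    by_cases h2 : i < l.length
    · rw [List.getD_eq_getElem _ _ h2] at h1
      exact ⟨h2, h1⟩
    · rw [List.getD_eq_default _ _ (not_lt.mp h2)] at h1
      exact absurd h1 (Nat.not_lt_zero _)

theorem card_cellsOfRowLens (l : List ℕ) : (YoungDiagram.cellsOfRowLens l).card = l.sum := by
  induction l with
  | nil => simp [YoungDiagram.cellsOfRowLens]
  | cons a t ih =>
    rw [YoungDiagram.cellsOfRowLens, Finset.card_union_of_disjoint]
    · simp [ih]
    · rw [Finset.disjoint_left]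
      rintro ⟨i, j⟩ h1 h2
      simp only [Finset.mem_product, Finset.mem_singleton] at h1
      simp only [Finset.mem_map] at h2
      obtain ⟨⟨a1, b1⟩, _, h3⟩ := h2
      simp only [Function.Embedding.prodMap, Function.Embedding.coeFn_mk, Prod.map,
        Prod.mk.injEq] at h3
      omega

theorem card_yd {l : List ℕ} (h : l.SortedGE) : (yd l).card = l.sum := by
  unfold yd
  rw [dif_pos h]
  exact card_cellsOfRowLens l

/-- Lists interlacing with `l` from below: all `ν` of the same length with
`l (i+1) ≤ ν i ≤ l i`. -/
def hs : List ℕ → List (List ℕ)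
  | [] => [[]]
  | a :: t => (List.range (a + 1 - t.headD 0)).flatMap
      (fun x => (hs t).map (fun ν => (t.headD 0 + x) :: ν))

theorem mem_hs {l ν : List ℕ} : ν ∈ hs l ↔ ν.length = l.length ∧
    ∀ i, i < l.length → l.getD (i + 1) 0 ≤ ν.getD i 0 ∧ ν.getD i 0 ≤ l.getD i 0 := by
  induction l generalizing ν with
  | nil => simp [hs]
  | cons a t ih =>
    simp only [hs, List.mem_flatMap, List.mem_range, List.mem_map]
    constructor
    · rintro ⟨x, hx, ν', hν', rfl⟩
      rw [ih] at hν'
      refine ⟨by simp [hν'.1], ?_⟩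
      intro i hi
      cases i with
      | zero =>
        simp only [List.getD_cons_zero, List.getD_cons_succ]
        have : t.getD 0 0 = t.headD 0 := by cases t <;> simp
        omega
      | succ i =>
        simp only [List.getD_cons_succ]
        simp only [List.length_cons] at hi
        exact hν'.2 i (by omega)
    · rintro ⟨h1, h2⟩
      cases ν with
      | nil => simp at h1
      | cons b ν' =>
        have h0 := h2 0 (by simp)
        rw [zero_add, List.getD_cons_succ] at h0
        simp only [List.getD_cons_zero] at h0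
        have h3 : t.getD 0 0 = t.headD 0 := by cases t <;> simp
        refine ⟨b - t.headD 0, by omega, ν', ?_, ?_⟩
        · rw [ih]
          refine ⟨by simpa using h1, ?_⟩
          intro i hi
          have := h2 (i + 1) (by simp; omega)
          simpa only [List.getD_cons_succ] using this
        · congr 1
          omega

theorem nodup_hs (l : List ℕ) : (hs l).Nodup := by
  induction l with
  | nil => simp [hs]
  | cons a t ih =>
    simp only [hs]
    rw [List.nodup_flatMap]
    constructor
    · intro x _
      apply List.Nodup.map _ ih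
      intro u v h
      simpa using h
    · apply List.Pairwise.imp _ (List.nodup_range (n := _))
      intro x y hxy
      simp only [Function.onFun]
      rw [List.disjoint_left]
      intro u hu hv
      simp only [List.mem_map] at hu hv
      obtain ⟨u1, _, rfl⟩ := hu
      obtain ⟨v1, _, h⟩ := hv
      simp only [List.cons.injEq] at h
      apply hxy
      omega

theorem sorted_of_mem_hs {l ν : List ℕ} (hν : ν ∈ hs l) : ν.SortedGE := by
  rw [mem_hs] at hν
  rw [List.sortedGE_iff_isChain, List.isChain_iff_getElem]
  intro i hi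
  have h1 := hν.2 i (by omega)
  have h2 := hν.2 (i + 1) (by omega)
  rw [List.getD_eq_getElem _ _ (by omega : i < ν.length)] at h1
  rw [List.getD_eq_getElem _ _ (by omega : i + 1 < ν.length)] at h2
  exact h2.2.trans h1.1

theorem yd_mem_HS {l ν : List ℕ} (h : l.SortedGE) (hν : ν ∈ hs l) :
    yd ν ≤ yd l ∧ ∀ i j, (i + 1, j) ∈ yd l → (i, j) ∈ yd ν := by
  have hs' := sorted_of_mem_hs hν
  rw [mem_hs] at hν
  constructor
  · rintro ⟨i, j⟩ hm
    have hm' : (i, j) ∈ yd ν := hm
    change (i, j) ∈ yd l
    rw [mem_yd hs'] at hm'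
    rw [mem_yd h]
    by_cases hi : i < l.length
    · exact hm'.trans_le (hν.2 i hi).2
    · rw [List.getD_eq_default _ _ (by omega)] at hm'
      exact absurd hm' (Nat.not_lt_zero _)
  · intro i j hm
    rw [mem_yd h] at hm
    rw [mem_yd hs']
    by_cases hi : i < l.length
    · exact hm.trans_le (hν.2 i hi).1
    · rw [List.getD_eq_default _ _ (by omega)] at hm
      exact absurd hm (Nat.not_lt_zero _)

theorem yd_injOn {ν ν' : List ℕ} (h : ν.SortedGE) (h' : ν'.SortedGE) (hl : ν.length = ν'.length)
    (he : yd ν = yd ν') : ν = ν' := by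
  apply List.ext_getElem hl
  intro i h1 h2
  have key : ∀ j, j < ν.getD i 0 ↔ j < ν'.getD i 0 := by
    intro j
    rw [← mem_yd h, ← mem_yd h', he]
  rw [List.getD_eq_getElem _ _ h1, List.getD_eq_getElem _ _ h2] at key
  have a1 := key ν[i]
  have a2 := key ν'[i]
  omega

theorem exists_list_of_HS {l : List ℕ} (h : l.SortedGE) (ν : HS (yd l)) :
    ∃ w ∈ hs l, yd w = ν.1 := by
  obtain ⟨ν, hν, hh⟩ := ν
  refine ⟨(List.range l.length).map ν.rowLen, ?_, ?_⟩
  · rw [mem_hs]
    refine ⟨by simp, ?_⟩
    intro i hi
    rw [List.getD_eq_getElem ((List.range l.length).map ν.rowLen) _ (by simpa using hi)]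
    simp only [List.getElem_map, List.getElem_range]
    constructor
    · by_contra hc
      push Not at hc
      have h1 : (i + 1, ν.rowLen i) ∈ yd l := by rw [mem_yd h]; exact hc
      have h2 := hh _ _ h1
      rw [YoungDiagram.mem_iff_lt_rowLen] at h2
      exact lt_irrefl _ h2
    · by_contra hc
      push Not at hc
      have h1 : (i, l.getD i 0) ∈ ν := by rw [YoungDiagram.mem_iff_lt_rowLen]; exact hc
      have h2 : (i, l.getD i 0) ∈ yd l := hν h1
      rw [mem_yd h] at h2
      exact lt_irrefl _ h2
  · have hsort : ((List.range l.length).map ν.rowLen).SortedGE :=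
      (List.pairwise_le_range.map _ ν.rowLen_anti).sortedGE
    apply YoungDiagram.ext
    ext ⟨i, j⟩
    change (i, j) ∈ yd _ ↔ (i, j) ∈ ν
    rw [mem_yd hsort, YoungDiagram.mem_iff_lt_rowLen]
    by_cases hi : i < l.length
    · rw [List.getD_eq_getElem _ _ (by simpa using hi)]
      simp only [List.getElem_map, List.getElem_range]
    · rw [List.getD_eq_default _ _ (by simpa using hi)]
      constructor
      · intro h1
        exact absurd h1 (Nat.not_lt_zero _)
      · intro h1
        have h2 : (i, j) ∈ ν := by rw [YoungDiagram.mem_iff_lt_rowLen]; exact h1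
        have h3 : (i, j) ∈ yd l := hν h2
        rw [mem_yd h, List.getD_eq_default _ _ (by omega)] at h3
        exact absurd h3 (Nat.not_lt_zero _)

theorem S_yd_succ (k : ℕ) {l : List ℕ} (h : l.SortedGE) :
    S (k + 1) (yd l) =
      ((hs l).map (fun ν => X k ^ (l.sum - ν.sum) * S k (yd ν))).sum := by
  classical
  rw [S_succ]
  have : Fintype (HS (yd l)) := Fintype.ofFinite _
  rw [finsum_eq_sum_of_fintype, ← List.sum_toFinset _ (nodup_hs l)]
  symm
  apply Finset.sum_bij (fun ν hν => (⟨yd ν, yd_mem_HS h (List.mem_toFinset.1 hν)⟩ : HS (yd l)))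
  · intro ν hν
    exact Finset.mem_univ _
  · intro a ha b hb hab
    rw [List.mem_toFinset] at ha hb
    have := congrArg Subtype.val hab
    exact yd_injOn (sorted_of_mem_hs ha) (sorted_of_mem_hs hb)
      ((mem_hs.1 ha).1.trans (mem_hs.1 hb).1.symm) this
  · intro ν _
    obtain ⟨w, hw, he⟩ := exists_list_of_HS h ν
    exact ⟨w, List.mem_toFinset.2 hw, Subtype.ext he⟩
  · intro ν hν
    rw [List.mem_toFinset] at hν
    simp only
    rw [card_yd h, card_yd (sorted_of_mem_hs hν)]

end

end Pool.Agent.K7.H22.SNP
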