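import Pool.Agent.K7.H22.SNP.Facts
import Pool.Agent.K7.H22.SNP.Graph

set_option autoImplicit false

open MvPolynomial

namespace Pool.Agent.K7.H22.SNP

noncomputable section

theorem fits_pts : Fits pts zeros := by
  have key : ∀ (PP : List (List (List ℕ))) (g : List (List ℤ)), PP.length = g.length →
      (∀ n < PP.length, (PP.getD n []).length ≤ (g.getD n []).length) → Fits PP g := by
    intro PP
    induction PP with
    | nil => intro g _ _; trivial
    | cons P PP ih =>
      intro g hl h
      cases g with
      | nil => simp at hl
      | cons v g =>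
        refine ⟨?_, ih g (by simpa using hl) ?_⟩
        · simpa using h 0 (by simp)
        · intro n hn
          have := h (n + 1) (by simpa using hn)
          simpa using this
  apply key
  · exact fits_zeros.1
  · intro n hn
    apply fits_zeros.2
    rw [List.mem_range]
    have : pts.length = 13 := by decide +kernel
    omega

theorem evG_rhs (W : List ℕ → MvPolynomial ℕ ℤ) (r i j : ℕ) :
    evG W pts (rhs r i j) = evMM W pts (C r i j) (ind.getD (pc r + i + j) []) := by
  unfold rhs
  rw [evG_rhsAux W pts _ _ _ fits_pts, evG_zeroG W pts _ zeroG_zeros, zero_add]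

/-- foldr computes a sum -/
theorem evG_foldr {α : Type} (W : List ℕ → MvPolynomial ℕ ℤ) (L : List α)
    (h : α → List (List ℤ) → List (List ℤ)) (t : α → MvPolynomial ℕ ℤ)
    (ht : ∀ x ∈ L, ∀ g, evG W pts (h x g) = t x + evG W pts g) (g : List (List ℤ)) :
    evG W pts (L.foldr h g) = (L.map t).sum + evG W pts g := by
  induction L with
  | nil => simp
  | cons x L ih =>
    rw [List.foldr_cons, ht x (by simp), ih (fun y hy => ht y (by simp [hy]))]
    simp [add_assoc]

theorem evG_term (W : List ℕ → MvPolynomial ℕ ℤ) (r i j s i' j' : ℕ) (g : List (List ℤ)) :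
    evG W pts (term r i j s i' j' g) =
      (mult s i j i' j' : ℤ) • evL W (pts.getD (pc (r - s) + (i - i') + (j - j')) [])
        (C (r - s) (i - i') (j - j')) + evG W pts g := by
  unfold term
  by_cases h : mult s i j i' j' = 0
  · have : Nat.beq (mult s i j i' j') 0 = true := by rw [h]; rfl
    rw [this, cond_true, h]
    simp
  · have : Nat.beq (mult s i j i' j') 0 = false := by
      rw [← Bool.not_eq_true]
      intro h'
      exact h (Nat.eq_of_beq_eq_true h')
    rw [this, cond_false, evG_axpyG]

theorem evG_lhs (W : List ℕ → MvPolynomial ℕ ℤ) (r i j : ℕ) :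
    evG W pts (lhs r i j) = ((subs r).map (fun s => ((List.range (i + 1)).map (fun i' =>
      ((List.range (j + 1)).map (fun j' => (mult s i j i' j' : ℤ) •
        evL W (pts.getD (pc (r - s) + (i - i') + (j - j')) [])
        (C (r - s) (i - i') (j - j')))).sum)).sum)).sum := by
  unfold lhs
  rw [evG_foldr W (subs r) _ (fun s => ((List.range (i + 1)).map (fun i' =>
      ((List.range (j + 1)).map (fun j' => (mult s i j i' j' : ℤ) •
        evL W (pts.getD (pc (r - s) + (i - i') + (j - j')) [])
        (C (r - s) (i - i') (j - j')))).sum)).sum)]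
  · simp
  · intro s _ g
    rw [evG_foldr W (List.range (i + 1)) _ (fun i' =>
      ((List.range (j + 1)).map (fun j' => (mult s i j i' j' : ℤ) •
        evL W (pts.getD (pc (r - s) + (i - i') + (j - j')) [])
        (C (r - s) (i - i') (j - j')))).sum)]
    intro i' _ g
    rw [evG_foldr W (List.range (j + 1)) _ (fun j' => (mult s i j i' j' : ℤ) •
        evL W (pts.getD (pc (r - s) + (i - i') + (j - j')) [])
        (C (r - s) (i - i') (j - j')))]
    intro j' _ g
    rw [evG_term]

theorem evL_congr {W W' : List ℕ → MvPolynomial ℕ ℤ} {P : List (List ℕ)} {v : List ℤ}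
    (h : ∀ l ∈ P, W l = W' l) : evL W P v = evL W' P v := by
  induction P generalizing v with
  | nil => simp
  | cons p P ih =>
    cases v with
    | nil => simp
    | cons a v =>
      rw [evL_cons, evL_cons, h p (by simp), ih (fun l hl => h l (by simp [hl]))]

theorem evL_mul (q : MvPolynomial ℕ ℤ) {W : List ℕ → MvPolynomial ℕ ℤ} {P : List (List ℕ)}
    {v : List ℤ} : evL (fun l => q * W l) P v = q * evL W P v := by
  induction P generalizing v with
  | nil => simp
  | cons p P ih =>
    cases v with
    | nil => simp
    | cons a v =>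
      rw [evL_cons, evL_cons, ih, mul_add, mul_smul_comm]

/-- the weight function -/
def Wt (k n : ℕ) (l : List ℕ) : MvPolynomial ℕ ℤ := X k ^ (n - l.sum) * S k (yd l)

theorem evMM_eq (k n : ℕ) (P : List (List ℕ)) (msl : List (List ℕ)) (v : List ℤ)
    (hP : ∀ l ∈ P, l.sum = n ∧ l.IsChain (· ≥ ·)) (hI : indOK P msl = true) :
    evMM (Wt k n) pts v msl = evL (fun l => S (k + 1) (yd l)) P v := by
  induction P generalizing msl v with
  | nil =>
    cases msl with
    | nil => cases v <;> simp [evMM]
    | cons ms msl => simp [indOK] at hI
  | cons l P ih =>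
    cases msl with
    | nil => simp [indOK] at hI
    | cons ms msl =>
      simp only [indOK, Bool.and_eq_true] at hI
      cases v with
      | nil => simp [evMM]
      | cons a v =>
        rw [evL_cons]
        simp only [evMM]
        rw [ih msl v (fun l hl => hP l (by simp [hl])) hI.2]
        congr 1
        have hsort : l.SortedGE := List.sortedGE_iff_isChain.2 (hP l (by simp)).2
        rw [S_yd_succ k hsort, evMG_eq]
        have hperm := List.isPerm_iff.1 hI.1
        rw [(hP l (by simp)).1]
        congr 1
        exact ((hperm.map (Wt k n)).sum_eq).symm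

theorem pc_sub {r s : ℕ} (hr : r < 32) (hs : s ∈ subs r) :
    pc (r - s) ≤ pc r ∧ (toF s).card = pc r - pc (r - s) := by
  have := (subs_ok3 r (List.mem_range.2 hr) s hs).2
  omega

theorem sum_range_eq_list (n : ℕ) (f : ℕ → MvPolynomial ℕ ℤ) :
    ∑ i ∈ Finset.range n, f i = ((List.range n).map f).sum := by
  rw [← List.sum_toFinset f (List.nodup_range)]
  congr 1
  ext x
  simp

theorem pc_lt {r : ℕ} : pc r ≤ 5 := by
  unfold pc
  omega

/-- The certificate is correct. -/
theorem F_eq (k : ℕ) : ∀ r < 32, ∀ i < 5, ∀ j < 4,
    F k (toF r) i j = evL (fun l => S k (yd l)) (pts.getD (pc r + i + j) []) (C r i j) := by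
  induction k with
  | zero =>
    intro r hr i hi j hj
    have hn : pc r + i + j ∈ List.range 13 := by
      rw [List.mem_range]
      have := pc_lt (r := r)
      omega
    by_cases h0 : r = 0 ∧ i = 0 ∧ j = 0
    · obtain ⟨rfl, rfl, rfl⟩ := h0
      have h1 : pts.getD (pc 0 + 0 + 0) [] = [[0,0,0,0,0,0,0,0,0,0,0,0]] := by decide +kernel
      have h2 : C 0 0 0 = [1] := by decide +kernel
      have h3 : toF 0 = ∅ := by decide +kernel
      rw [h1, h2, h3, evL_cons, evL_nil_left]
      have h4 : S 0 (yd [0,0,0,0,0,0,0,0,0,0,0,0]) = 1 := by
        apply S_bot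
        have hsort : ([0,0,0,0,0,0,0,0,0,0,0,0] : List ℕ).SortedGE := by
          rw [List.sortedGE_iff_isChain]; decide
        rw [← Finset.card_eq_zero]
        exact card_yd hsort
      rw [h4]
      unfold F
      have h5 : col 0 ∅ = {fun _ => 0} := by
        ext κ
        rw [mem_col, Finset.mem_singleton]
        constructor
        · rintro ⟨-, h, -⟩
          funext v
          exact h v (by simp)
        · rintro rfl
          simp
      rw [h5]
      simp
    · have hR : evL (fun l => S 0 (yd l)) (pts.getD (pc r + i + j) []) (C r i j) = 0 := by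
        have hpos : 0 < pc r + i + j := by
          by_contra hc
          have h1 : pc r = 0 := by omega
          have h2 : i = 0 := by omega
          have h3 : j = 0 := by omega
          have h4 : r = 0 := by
            have hz : ∀ r ∈ List.range 32, pc r = 0 → r = 0 := by decide +kernel
            exact hz r (List.mem_range.2 hr) h1
          exact h0 ⟨h4, h2, h3⟩
        rw [evL_congr (W' := fun _ => 0 * 0)]
        · rw [evL_mul]; simp
        · intro l hl
          obtain ⟨h1, h2⟩ := pts_ok _ hn l hl
          rw [mul_zero]
          apply S_zero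
          rw [← Finset.card_pos]
          have := card_yd (List.sortedGE_iff_isChain.2 h2)
          unfold YoungDiagram.card at this
          rw [this, h1]
          exact hpos
      rw [hR]
      unfold F
      apply Finset.sum_eq_zero
      intro κ hκ
      rw [mem_col] at hκ
      have hav : ∀ Q, avail 0 (toF r) Q κ = 0 := by
        intro Q
        unfold avail
        simp
      rw [hav, hav]
      by_cases hi0 : i = 0
      · by_cases hj0 : j = 0
        · exfalso
          have hr0 : r ≠ 0 := fun h => h0 ⟨h, hi0, hj0⟩
          have hne : ∀ r ∈ List.range 32, r ≠ 0 → (toF r).Nonempty := by decide +kernel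
          obtain ⟨v, hv⟩ := hne r (List.mem_range.2 hr) hr0
          exact absurd (hκ.1 v hv) (Nat.not_lt_zero _)
        · rw [zero_pow hj0, mul_zero]
      · rw [zero_pow hi0, mul_zero, zero_mul]
  | succ k ih =>
    intro r hr i hi j hj
    have hn : pc r + i + j ∈ List.range 13 := by
      rw [List.mem_range]
      have := pc_lt (r := r)
      omega
    set n := pc r + i + j with hndef
    -- right-hand side
    rw [← evMM_eq k n _ (ind.getD n []) _ (pts_ok n hn) (indOK_all n hn), ← evG_rhs]
    have hchk := chk_all r hr
    unfold chk at hchk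
    rw [List.all_eq_true] at hchk
    have h1 := hchk i (List.mem_range.2 hi)
    rw [List.all_eq_true] at h1
    have h2 := h1 j (List.mem_range.2 hj)
    rw [← evG_eqG (Wt k n) pts _ _ h2, evG_lhs, F_succ]
    rw [subs_ok1 r (List.mem_range.2 hr), List.sum_toFinset _ (subs_ok2 r (List.mem_range.2 hr)),
      List.map_map]
    congr 1
    apply List.map_congr_left
    intro s hs
    simp only [Function.comp]
    rw [sum_range_eq_list]
    congr 1
    apply List.map_congr_left
    intro i' hi'
    rw [sum_range_eq_list]
    congr 1
    apply List.map_congr_left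
    intro j' hj'
    rw [List.mem_range] at hi' hj'
    obtain ⟨hs1, hs2⟩ := subs_ok3 r (List.mem_range.2 hr) s hs
    obtain ⟨hs3, hs4⟩ := subs_ok4 r (List.mem_range.2 hr) s hs
    rw [hs1, ih (r - s) (by omega) (i - i') (by omega) (j - j') (by omega)]
    set n' := pc (r - s) + (i - i') + (j - j') with hn'def
    have hn' : n' ∈ List.range 13 := by
      rw [List.mem_range]
      rw [List.mem_range] at hn
      omega
    have hW : evL (Wt k n) (pts.getD n' []) (C (r - s) (i - i') (j - j')) =
        X k ^ ((toF s).card + i' + j') *
          evL (fun l => S k (yd l)) (pts.getD n' []) (C (r - s) (i - i') (j - j')) := by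
      rw [← evL_mul]
      apply evL_congr
      intro l hl
      obtain ⟨h3, _⟩ := pts_ok n' hn' l hl
      unfold Wt
      rw [h3]
      congr 2
      omega
    rw [hW]
    unfold mult
    have e1 : ((if toF s ∩ {2, 3} = ∅ then (X k : MvPolynomial ℕ ℤ) else 0) ^ i' *
        ((i.choose i' : ℕ) : MvPolynomial ℕ ℤ)) =
        ((bif Nat.beq (Nat.land s 12) 0 || Nat.beq i' 0 then i.choose i' else 0 : ℕ) :
          MvPolynomial ℕ ℤ) * X k ^ i' := by
      by_cases hc : toF s ∩ {2, 3} = ∅
      · have : Nat.beq (Nat.land s 12) 0 = true := by rw [hs3.1 hc]; rfl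
        rw [if_pos hc, this, Bool.true_or, cond_true, mul_comm]
      · have : Nat.beq (Nat.land s 12) 0 = false := by
          rw [← Bool.not_eq_true]
          intro h'
          exact hc (hs3.2 (Nat.eq_of_beq_eq_true h'))
        rw [if_neg hc, this, Bool.false_or]
        by_cases hi0 : i' = 0
        · subst hi0
          simp
        · have : Nat.beq i' 0 = false := by
            rw [← Bool.not_eq_true]
            intro h'
            exact hi0 (Nat.eq_of_beq_eq_true h')
          rw [this, cond_false, zero_pow hi0]
          simp
    have e2 : ((if toF s ∩ {0, 1} = ∅ then (X k : MvPolynomial ℕ ℤ) else 0) ^ j' *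
        ((j.choose j' : ℕ) : MvPolynomial ℕ ℤ)) =
        ((bif Nat.beq (Nat.land s 3) 0 || Nat.beq j' 0 then j.choose j' else 0 : ℕ) :
          MvPolynomial ℕ ℤ) * X k ^ j' := by
      by_cases hc : toF s ∩ {0, 1} = ∅
      · have : Nat.beq (Nat.land s 3) 0 = true := by rw [hs4.1 hc]; rfl
        rw [if_pos hc, this, Bool.true_or, cond_true, mul_comm]
      · have : Nat.beq (Nat.land s 3) 0 = false := by
          rw [← Bool.not_eq_true]
          intro h'
          exact hc (hs4.2 (Nat.eq_of_beq_eq_true h'))
        rw [if_neg hc, this, Bool.false_or]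
        by_cases hj0 : j' = 0
        · subst hj0
          simp
        · have : Nat.beq j' 0 = false := by
            rw [← Bool.not_eq_true]
            intro h'
            exact hj0 (Nat.eq_of_beq_eq_true h')
          rw [this, cond_false, zero_pow hj0]
          simp
    rw [e1, e2]
    rw [zsmul_eq_mul]
    push_cast
    ring

end

end Pool.Agent.K7.H22.SNP
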