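import Pool.Agent.K7.H22.SNP.Check

set_option autoImplicit false

open MvPolynomial

namespace Pool.Agent.K7.H22.SNP

noncomputable section

/-- evaluation of a vector against a list of partitions -/
def evL (W : List ℕ → MvPolynomial ℕ ℤ) : List (List ℕ) → List ℤ → MvPolynomial ℕ ℤ
  | p :: P, a :: v => a • W p + evL W P v
  | [], _ => 0
  | _ :: _, [] => 0

def evG (W : List ℕ → MvPolynomial ℕ ℤ) : List (List (List ℕ)) → List (List ℤ) →
    MvPolynomial ℕ ℤ
  | P :: PP, v :: g => evL W P v + evG W PP g
  | [], _ => 0
  | _ :: _, [] => 0

variable (W : List ℕ → MvPolynomial ℕ ℤ)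

@[simp] theorem evL_nil_left (v : List ℤ) : evL W [] v = 0 := by cases v <;> rfl
@[simp] theorem evL_nil_right (P : List (List ℕ)) : evL W P [] = 0 := by cases P <;> rfl
@[simp] theorem evL_cons (p : List ℕ) (P : List (List ℕ)) (a : ℤ) (v : List ℤ) :
    evL W (p :: P) (a :: v) = a • W p + evL W P v := rfl
@[simp] theorem evG_nil_left (v : List (List ℤ)) : evG W [] v = 0 := by cases v <;> rfl
@[simp] theorem evG_nil_right (P : List (List (List ℕ))) : evG W P [] = 0 := by cases P <;> rfl
@[simp] theorem evG_cons (P : List (List ℕ)) (PP : List (List (List ℕ))) (v : List ℤ)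
    (g : List (List ℤ)) : evG W (P :: PP) (v :: g) = evL W P v + evG W PP g := rfl

theorem axpy_nil (c : ℤ) (v : List ℤ) : axpy c [] v = v := rfl
theorem axpy_cons_nil (c a : ℤ) (u : List ℤ) : axpy c (a :: u) [] = c * a :: axpy c u [] := rfl
theorem axpy_cons_cons (c a b : ℤ) (u v : List ℤ) :
    axpy c (a :: u) (b :: v) = (c * a + b) :: axpy c u v := rfl

theorem evL_axpy (c : ℤ) (P : List (List ℕ)) (u v : List ℤ) :
    evL W P (axpy c u v) = c • evL W P u + evL W P v := by
  induction u generalizing P v with
  | nil => simp [axpy_nil]
  | cons a u ih =>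
    cases v with
    | nil =>
      rw [axpy_cons_nil]
      cases P with
      | nil => simp
      | cons p P =>
        rw [evL_cons, ih, evL_cons, evL_nil_right, evL_nil_right, smul_add, mul_smul]
        ring
    | cons b v =>
      rw [axpy_cons_cons]
      cases P with
      | nil => simp
      | cons p P =>
        rw [evL_cons, ih, evL_cons, evL_cons, smul_add, add_smul, mul_smul]
        abel

theorem axpyG_zero_nil (c : ℤ) (u : List ℤ) : axpyG c u 0 [] = [axpy c u []] := rfl
theorem axpyG_zero_cons (c : ℤ) (u v : List ℤ) (g : List (List ℤ)) :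
    axpyG c u 0 (v :: g) = axpy c u v :: g := rfl
theorem axpyG_succ_nil (c : ℤ) (u : List ℤ) (n : ℕ) :
    axpyG c u (n + 1) [] = [] :: axpyG c u n [] := rfl
theorem axpyG_succ_cons (c : ℤ) (u v : List ℤ) (n : ℕ) (g : List (List ℤ)) :
    axpyG c u (n + 1) (v :: g) = v :: axpyG c u n g := rfl

theorem evG_axpyG (c : ℤ) (u : List ℤ) (n : ℕ) (PP : List (List (List ℕ)))
    (g : List (List ℤ)) :
    evG W PP (axpyG c u n g) = c • evL W (PP.getD n []) u + evG W PP g := by
  induction n generalizing PP g with
  | zero =>
    cases PP with
    | nil => simp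
    | cons P PP =>
      cases g with
      | nil =>
        rw [axpyG_zero_nil, evG_cons, evL_axpy]
        simp
      | cons v g =>
        rw [axpyG_zero_cons, evG_cons, evL_axpy, evG_cons]
        simp only [List.getD_cons_zero]
        abel
  | succ n ih =>
    cases PP with
    | nil => simp
    | cons P PP =>
      cases g with
      | nil =>
        rw [axpyG_succ_nil, evG_cons, ih]
        simp
      | cons v g =>
        rw [axpyG_succ_cons, evG_cons, ih, evG_cons]
        simp only [List.getD_cons_succ]
        abel

/-- evaluation of a bit mask -/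
def evM : List (List ℕ) → ℕ → MvPolynomial ℕ ℤ
  | [], _ => 0
  | p :: P, m => (if m % 2 = 1 then W p else 0) + evM P (m / 2)

def evMG : List (List (List ℕ)) → List ℕ → MvPolynomial ℕ ℤ
  | P :: PP, m :: ms => evM W P m + evMG PP ms
  | [], _ => 0
  | _ :: _, [] => 0

theorem addMask_nil (a : ℤ) (m : ℕ) : addMask a [] m = [] := rfl
theorem addMask_cons (a b : ℤ) (v : List ℤ) (m : ℕ) :
    addMask a (b :: v) m = (if m % 2 = 1 then a + b else b) :: addMask a v (m / 2) := by
  change (cond (Nat.beq (m % 2) 1) (a + b) b) :: addMask a v (m / 2) = _
  congr 1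
  by_cases h : m % 2 = 1
  · rw [if_pos h, h]; rfl
  · rw [if_neg h]
    have : Nat.beq (m % 2) 1 = false := by
      rw [← Bool.not_eq_true]
      intro h'
      exact h (Nat.eq_of_beq_eq_true h')
    rw [this]; rfl

theorem length_addMask (a : ℤ) (v : List ℤ) (m : ℕ) : (addMask a v m).length = v.length := by
  induction v generalizing m with
  | nil => rfl
  | cons b v ih => rw [addMask_cons, List.length_cons, ih, List.length_cons]

theorem evL_addMask (a : ℤ) (P : List (List ℕ)) (v : List ℤ) (m : ℕ) (h : P.length ≤ v.length) :
    evL W P (addMask a v m) = evL W P v + a • evM W P m := by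
  induction P generalizing v m with
  | nil => simp [evM]
  | cons p P ih =>
    cases v with
    | nil => simp at h
    | cons b v =>
      rw [addMask_cons, evL_cons, ih v (m / 2) (by simpa using h), evL_cons]
      simp only [evM]
      split_ifs with h1
      · rw [add_smul, smul_add]; abel
      · rw [smul_add]; simp; abel

theorem addMaskG_nil (a : ℤ) (ms : List ℕ) : addMaskG a [] ms = [] := rfl
theorem addMaskG_cons_nil (a : ℤ) (v : List ℤ) (g : List (List ℤ)) :
    addMaskG a (v :: g) [] = v :: g := rfl
theorem addMaskG_cons_cons (a : ℤ) (v : List ℤ) (g : List (List ℤ)) (m : ℕ) (ms : List ℕ) :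
    addMaskG a (v :: g) (m :: ms) = addMask a v m :: addMaskG a g ms := rfl

/-- length condition -/
def Fits : List (List (List ℕ)) → List (List ℤ) → Prop
  | P :: PP, v :: g => P.length ≤ v.length ∧ Fits PP g
  | [], _ => True
  | _ :: _, [] => False

theorem fits_addMaskG (a : ℤ) (PP : List (List (List ℕ))) (g : List (List ℤ)) (ms : List ℕ)
    (h : Fits PP g) : Fits PP (addMaskG a g ms) := by
  induction PP generalizing g ms with
  | nil => trivial
  | cons P PP ih =>
    cases g with
    | nil => exact h.elim
    | cons v g =>
      cases ms with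
      | nil => exact h
      | cons m ms =>
        rw [addMaskG_cons_cons]
        refine ⟨?_, ih g ms h.2⟩
        rw [length_addMask]
        exact h.1

theorem evG_addMaskG (a : ℤ) (PP : List (List (List ℕ))) (g : List (List ℤ)) (ms : List ℕ)
    (h : Fits PP g) : evG W PP (addMaskG a g ms) = evG W PP g + a • evMG W PP ms := by
  induction PP generalizing g ms with
  | nil => simp [evMG]
  | cons P PP ih =>
    cases g with
    | nil => exact h.elim
    | cons v g =>
      cases ms with
      | nil => simp [addMaskG_cons_nil, evMG]
      | cons m ms =>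
        rw [addMaskG_cons_cons, evG_cons, evL_addMask W a P v m h.1, ih g ms h.2, evG_cons]
        simp only [evMG]
        rw [smul_add]
        abel

theorem beq'_iff (a b : ℤ) : Int.beq' a b = true ↔ a = b := by
  rw [Int.beq'_eq]

/-- the combination of the masks -/
def evMM (PP : List (List (List ℕ))) : List ℤ → List (List ℕ) → MvPolynomial ℕ ℤ
  | a :: v, ms :: msl => a • evMG W PP ms + evMM PP v msl
  | [], _ => 0
  | _ :: _, [] => 0

theorem evG_rhsAux (PP : List (List (List ℕ))) (v : List ℤ) (msl : List (List ℕ))
    (g : List (List ℤ)) (h : Fits PP g) :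
    evG W PP (rhsAux v msl g) = evG W PP g + evMM W PP v msl := by
  induction v generalizing msl g with
  | nil =>
    change evG W PP g = _
    cases msl <;> simp [evMM]
  | cons a v ih =>
    cases msl with
    | nil =>
      change evG W PP g = _
      simp [evMM]
    | cons ms msl =>
      change evG W PP (rhsAux v msl (cond (Int.beq' a 0) g (addMaskG a g ms))) = _
      by_cases ha : a = 0
      · subst ha
        have : Int.beq' 0 0 = true := (beq'_iff 0 0).2 rfl
        rw [this, cond_true, ih msl g h]
        simp [evMM]
      · have : Int.beq' a 0 = false := by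
          rw [← Bool.not_eq_true]
          intro h'
          exact ha ((beq'_iff a 0).1 h')
        rw [this, cond_false, ih msl _ (fits_addMaskG a PP g ms h), evG_addMaskG W a PP g ms h]
        simp only [evMM]
        abel

theorem zeroL_cons (b : ℤ) (v : List ℤ) : zeroL (b :: v) = cond (Int.beq' b 0) (zeroL v) false :=
  rfl

theorem evL_zeroL (P : List (List ℕ)) (v : List ℤ) (h : zeroL v = true) : evL W P v = 0 := by
  induction v generalizing P with
  | nil => simp
  | cons b v ih =>
    rw [zeroL_cons] at h
    cases P with
    | nil => simp
    | cons p P =>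
      cases hb : Int.beq' b 0 with
      | false => rw [hb] at h; exact absurd h (by simp)
      | true =>
        rw [hb, cond_true] at h
        rw [evL_cons, ih P h, (beq'_iff b 0).1 hb]
        simp

theorem zeroG_cons (b : List ℤ) (v : List (List ℤ)) :
    zeroG (b :: v) = cond (zeroL b) (zeroG v) false := rfl

theorem evG_zeroG (PP : List (List (List ℕ))) (v : List (List ℤ)) (h : zeroG v = true) :
    evG W PP v = 0 := by
  induction v generalizing PP with
  | nil => simp
  | cons b v ih =>
    rw [zeroG_cons] at h
    cases PP with
    | nil => simp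
    | cons p P =>
      cases hb : zeroL b with
      | false => rw [hb] at h; exact absurd h (by simp)
      | true =>
        rw [hb, cond_true] at h
        rw [evG_cons, ih P h, evL_zeroL W p b hb]
        simp

theorem evL_eqL (P : List (List ℕ)) (u v : List ℤ) (h : eqL u v = true) :
    evL W P u = evL W P v := by
  induction u generalizing P v with
  | nil =>
    change zeroL v = true at h
    rw [evL_zeroL W P v h]
    simp
  | cons a u ih =>
    cases v with
    | nil =>
      change zeroL (a :: u) = true at h
      rw [evL_zeroL W P _ h]
      simp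
    | cons b v =>
      change cond (Int.beq' a b) (eqL u v) false = true at h
      cases P with
      | nil => simp
      | cons p P =>
        cases hb : Int.beq' a b with
        | false => rw [hb] at h; exact absurd h (by simp)
        | true =>
          rw [hb, cond_true] at h
          rw [evL_cons, evL_cons, ih P v h, (beq'_iff a b).1 hb]

theorem evG_eqG (PP : List (List (List ℕ))) (u v : List (List ℤ)) (h : eqG u v = true) :
    evG W PP u = evG W PP v := by
  induction u generalizing PP v with
  | nil =>
    change zeroG v = true at h
    rw [evG_zeroG W PP v h]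
    simp
  | cons a u ih =>
    cases v with
    | nil =>
      change zeroG (a :: u) = true at h
      rw [evG_zeroG W PP _ h]
      simp
    | cons b v =>
      change cond (eqL a b) (eqG u v) false = true at h
      cases PP with
      | nil => simp
      | cons p P =>
        cases hb : eqL a b with
        | false => rw [hb] at h; exact absurd h (by simp)
        | true =>
          rw [hb, cond_true] at h
          rw [evG_cons, evG_cons, ih P v h, evL_eqL W p a b hb]

end

end Pool.Agent.K7.H22.SNP
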